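import Pool.Agent.H731R3.Rect.Defs
import Pool.Agent.H973R2.Exp3

/-!
One-arm bounds in the quarter-plane (from `H973.exponents`).
-/

namespace H731R

open H974 H731C H973 Finset

private theorem ES_QT {n : ℤ} : ES (QT n) = RE 0 n 0 n := by
  ext e
  rw [mem_ES, mem_QT, mem_QT]
  constructor
  · rintro ⟨h1, h2⟩
    apply RE_of_ends
    · unfold inR; omega
    · unfold inR; omega
  · intro h
    have := RE_ends h
    unfold inR at this
    omega

private theorem pr_CA {n : ℕ} (hn : 1 ≤ n) {S : Finset Edg} (hS : RE 0 n 0 n ⊆ S) :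
    P2 S (CA n) = armP (QT n) n := by
  have h1 : P2 S (CA n) = P2 (RE 0 n 0 n) (CA n) := by
    apply Pr_local hS
    intro F _
    unfold CA
    constructor
    · rintro ⟨v, hv, hr⟩
      refine ⟨v, hv, hr.mono ?_⟩
      rintro e ⟨he1, he2⟩
      exact ⟨by rw [Finset.coe_inter]; exact ⟨he1, he2⟩, he2⟩
    · rintro ⟨v, hv, hr⟩
      refine ⟨v, hv, hr.mono ?_⟩
      rintro e ⟨he1, he2⟩
      rw [Finset.coe_inter] at he1
      exact ⟨he1.1, he2⟩
  rw [h1]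
  unfold armP
  rw [ES_QT]
  apply Pr_congr
  intro F hF
  have hFR : (↑F : Set Edg) ∩ ↑(RE 0 (n : ℤ) 0 n) = ↑F := by
    apply Set.inter_eq_left.mpr
    exact_mod_cast hF
  have hn' : (1 : ℤ) ≤ n := by exact_mod_cast hn
  constructor
  · rintro ⟨v, hv, hr⟩
    have hin : inR 0 n 0 n v := by
      apply reach_inR (u := (0, 0)) ?_ hr
      unfold inR
      simp only
      omega
    rw [hFR] at hr
    refine ⟨v, ?_, ?_, hr⟩
    · rw [mem_QT]
      unfold inR at hin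
      omega
    · unfold onQ at hv
      unfold onBX
      simp only
      omega
  · rintro ⟨v, hv, hb, hr⟩
    have hin := mem_QT.mp hv
    refine ⟨v, ?_, ?_⟩
    · unfold onBX at hb
      unfold onQ
      simp only at hb
      omega
    · rw [hFR]; exact hr

theorem CA_bounds : ∃ c C : ℝ, 0 < c ∧ 0 < C ∧ ∀ n : ℤ, 1 ≤ n → ∀ S : Finset Edg,
    RE 0 n 0 n ⊆ S →
    c * ((1 : ℝ) / n) ^ ((2 : ℝ) / 3) ≤ P2 S (CA n) ∧
      P2 S (CA n) ≤ C * ((1 : ℝ) / n) ^ ((2 : ℝ) / 3) := by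
  obtain ⟨c, C, hc, hC, h⟩ := exponents
  refine ⟨c, C, hc, hC, ?_⟩
  intro n hn S hS
  obtain ⟨k, rfl⟩ := Int.eq_ofNat_of_zero_le (show (0:ℤ) ≤ n by omega)
  have hk : 1 ≤ k := by exact_mod_cast hn
  rw [pr_CA hk hS]
  have h1 := (h k hk).1
  have hk0 : (0 : ℝ) < k := by exact_mod_cast hk
  have hs : 0 < (k : ℝ) ^ ((2 : ℝ) / 3) := Real.rpow_pos_of_pos hk0 _
  have he : ((1 : ℝ) / ((k : ℤ) : ℝ)) ^ ((2 : ℝ) / 3) = ((k : ℝ) ^ ((2 : ℝ) / 3))⁻¹ := by
    rw [Int.cast_natCast, one_div, Real.inv_rpow hk0.le]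
  rw [he]
  constructor
  · rw [mul_inv_le_iff₀ hs, mul_comm]
    exact h1.1
  · rw [le_mul_inv_iff₀ hs, mul_comm]
    exact h1.2

end H731R
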