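import Pool.Agent.H731R3.Rect.Defs

/-! Task K: cosines. -/

namespace H731R
theorem Len_refl (a b m : ℤ) (hm : 0 ≤ m) : Len (m - b) (m - a) m = Len a b m := by
  have hN : (0 : ℝ) < (m : ℝ) + 1 := by
    have : (0 : ℝ) ≤ (m : ℝ) := by exact_mod_cast hm
    linarith
  unfold Len
  have h1 : Real.pi * ((m - b : ℤ) : ℝ) / ((m : ℝ) + 1) =
      Real.pi - Real.pi * ((b : ℝ) + 1) / ((m : ℝ) + 1) := by
    push_cast
    field_simp
    ring
  have h2 : Real.pi * (((m - a : ℤ) : ℝ) + 1) / ((m : ℝ) + 1) =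
      Real.pi - Real.pi * (a : ℝ) / ((m : ℝ) + 1) := by
    push_cast
    field_simp
    ring
  rw [h1, h2, Real.cos_pi_sub, Real.cos_pi_sub]
  ring

theorem Len_bounds {a b m : ℤ} (ha : 0 ≤ a) (hab : a ≤ b) (hb : b ≤ m) (h : a ≤ m - b) :
    2 * (((b - a + 1 : ℤ) : ℝ) * ((b + 1 : ℤ) : ℝ)) / ((m + 1 : ℤ) : ℝ) ^ 2 ≤ Len a b m ∧
      Len a b m ≤ 10 * ((((b - a + 1 : ℤ) : ℝ) * ((b + 1 : ℤ) : ℝ)) / ((m + 1 : ℤ) : ℝ) ^ 2) := by
  have ha' : (0 : ℝ) ≤ (a : ℝ) := by exact_mod_cast ha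
  have hab' : (a : ℝ) ≤ (b : ℝ) := by exact_mod_cast hab
  have hb' : (b : ℝ) ≤ (m : ℝ) := by exact_mod_cast hb
  have h' : (a : ℝ) ≤ (m : ℝ) - (b : ℝ) := by exact_mod_cast h
  push_cast
  set N : ℝ := (m : ℝ) + 1 with hN
  have hN0 : 0 < N := by linarith
  have hpi := Real.pi_pos
  have hpi2 : Real.pi ^ 2 ≤ 10 := by
    have h1 := Real.pi_lt_d2
    have h2 := Real.pi_pos
    nlinarith
  set u : ℝ := Real.pi * ((a : ℝ) + b + 1) / (2 * N) with hu
  set v : ℝ := Real.pi * ((b : ℝ) - a + 1) / (2 * N) with hv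
  have hLen : Len a b m = 2 * (Real.sin u * Real.sin v) := by
    unfold Len
    rw [Real.cos_sub_cos, ← hN]
    have e1 : (Real.pi * (a : ℝ) / N + Real.pi * ((b : ℝ) + 1) / N) / 2 = u := by
      rw [hu]
      field_simp
      ring
    have e2 : (Real.pi * (a : ℝ) / N - Real.pi * ((b : ℝ) + 1) / N) / 2 = -v := by
      rw [hv]
      field_simp
      ring
    rw [e1, e2, Real.sin_neg]
    ring
  have hu0 : 0 ≤ u := by rw [hu]; apply div_nonneg <;> nlinarith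
  have hv0 : 0 ≤ v := by rw [hv]; apply div_nonneg <;> nlinarith
  have hu1 : u ≤ Real.pi / 2 := by
    rw [hu, div_le_div_iff₀ (by positivity) (by positivity)]
    nlinarith
  have hv1 : v ≤ Real.pi / 2 := by
    rw [hv, div_le_div_iff₀ (by positivity) (by positivity)]
    nlinarith
  have hsu0 := Real.mul_le_sin hu0 hu1
  have hsv0 := Real.mul_le_sin hv0 hv1
  have hsu1 := Real.sin_le hu0
  have hsv1 := Real.sin_le hv0
  have e3 : 2 / Real.pi * u = ((a : ℝ) + b + 1) / N := by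
    rw [hu]
    field_simp
  have e4 : 2 / Real.pi * v = ((b : ℝ) - a + 1) / N := by
    rw [hv]
    field_simp
  rw [e3] at hsu0
  rw [e4] at hsv0
  have hp1 : 0 ≤ ((a : ℝ) + b + 1) / N := by apply div_nonneg <;> linarith
  have hp2 : 0 ≤ ((b : ℝ) - a + 1) / N := by apply div_nonneg <;> linarith
  rw [hLen]
  constructor
  · have h1 : ((a : ℝ) + b + 1) / N * (((b : ℝ) - a + 1) / N) ≤ Real.sin u * Real.sin v :=
      mul_le_mul hsu0 hsv0 hp2 (hp1.trans hsu0)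
    have h2 : ((b : ℝ) + 1) / N * (((b : ℝ) - a + 1) / N) ≤
        ((a : ℝ) + b + 1) / N * (((b : ℝ) - a + 1) / N) := by
      apply mul_le_mul_of_nonneg_right _ hp2
      apply div_le_div_of_nonneg_right _ hN0.le
      linarith
    calc 2 * (((b : ℝ) - a + 1) * ((b : ℝ) + 1)) / N ^ 2
        = 2 * (((b : ℝ) + 1) / N * (((b : ℝ) - a + 1) / N)) := by
          field_simp
      _ ≤ 2 * (Real.sin u * Real.sin v) := by linarith
  · have h1 : Real.sin u * Real.sin v ≤ u * v :=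
      mul_le_mul hsu1 hsv1 (hp2.trans hsv0) hu0
    have h2 : u * v = Real.pi ^ 2 / 4 * (((a : ℝ) + b + 1) * ((b : ℝ) - a + 1) / N ^ 2) := by
      rw [hu, hv]
      field_simp
      ring
    have h3 : ((a : ℝ) + b + 1) * ((b : ℝ) - a + 1) / N ^ 2 ≤
        2 * (((b : ℝ) - a + 1) * ((b : ℝ) + 1) / N ^ 2) := by
      rw [← mul_div_assoc]
      apply div_le_div_of_nonneg_right _ (by positivity)
      nlinarith
    have h4 : 0 ≤ ((b : ℝ) - a + 1) * ((b : ℝ) + 1) / N ^ 2 := by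
      apply div_nonneg _ (by positivity)
      apply mul_nonneg <;> linarith
    have h5 : Real.pi ^ 2 / 4 * (((a : ℝ) + b + 1) * ((b : ℝ) - a + 1) / N ^ 2) ≤
        Real.pi ^ 2 / 4 * (2 * (((b : ℝ) - a + 1) * ((b : ℝ) + 1) / N ^ 2)) := by
      apply mul_le_mul_of_nonneg_left h3 (by positivity)
    have h6 : Real.pi ^ 2 * (((b : ℝ) - a + 1) * ((b : ℝ) + 1) / N ^ 2) ≤
        10 * (((b : ℝ) - a + 1) * ((b : ℝ) + 1) / N ^ 2) :=
      mul_le_mul_of_nonneg_right hpi2 h4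
    linarith

end H731R
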