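import Pool.Agent.H731R3.Cardy.Interval

/-!
Crossings of a rectangle between an interval of the bottom side and an interval of the top side:
definitions.  Everything is for the parameter `1/2`.
-/

namespace H731R

open H974 H731C Finset

/-- `v` is on the right or on the top side of `[0, n]²`. -/
def onQ (n : ℤ) (v : Vtx) : Prop := v.1 = n ∨ v.2 = n

/-- The corner `(0, 0)` is connected to the right or top side of `[0, n]²`. -/
def CA (n : ℤ) (F : Finset Edg) : Prop :=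
  ∃ v, onQ n v ∧ Reach (↑F ∩ ↑(RE 0 n 0 n)) (0, 0) v

/-- `[0, m]²` is connected to the right or top side of `[0, n]²`. -/
def QA (m n : ℤ) (F : Finset Edg) : Prop :=
  ∃ u v, inR 0 m 0 m u ∧ onQ n v ∧ Reach (↑F ∩ ↑(RE 0 n 0 n)) u v

/-- The interval `[a, b] × {0}` is connected to the right or top side of `[0, n]²`. -/
def QI (a b n : ℤ) (F : Finset Edg) : Prop :=
  ∃ x v, (a ≤ x ∧ x ≤ b) ∧ onQ n v ∧ Reach (↑F ∩ ↑(RE 0 n 0 n)) (x, 0) v

/-- Quarter-circuit between the radii `r` and `3 r`. -/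
def QC (r : ℤ) (F : Finset Edg) : Prop :=
  LRc 0 (3 * r) r (3 * r) F ∧ TBc r (3 * r) 0 (3 * r) F

/-- The interval `[a, b] × {0}` is connected to the top side of `[A, B] × [0, h]`. -/
def VI (a b A B h : ℤ) (F : Finset Edg) : Prop :=
  ∃ x y, (a ≤ x ∧ x ≤ b) ∧ (A ≤ y ∧ y ≤ B) ∧ Reach (↑F ∩ ↑(RE A B 0 h)) (x, 0) (y, h)

/-- The interval `[a, b] × {n}` is connected to the bottom side of `[0, m] × [n - h, n]`. -/
def VT (a b m n h : ℤ) (F : Finset Edg) : Prop :=
  ∃ x y, (a ≤ x ∧ x ≤ b) ∧ (0 ≤ y ∧ y ≤ m) ∧ Reach (↑F ∩ ↑(RE 0 m (n - h) n)) (x, n) (y, n - h)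

/-- `[a, b] × {0}` and `[a', b'] × {n}` are connected inside `[0, m] × [0, n]`. -/
def BT (a b a' b' m n : ℤ) (F : Finset Edg) : Prop :=
  ∃ x y, (a ≤ x ∧ x ≤ b) ∧ (a' ≤ y ∧ y ≤ b') ∧ Reach (↑F ∩ ↑(RE 0 m 0 n)) (x, 0) (y, n)

/-- The size of the interval `[a, b]` of a side of length `m`, seen from infinity in the
half-infinite strip. -/
noncomputable def Len (a b m : ℤ) : ℝ :=
  Real.cos (Real.pi * a / (m + 1)) - Real.cos (Real.pi * (b + 1) / (m + 1))

theorem CA_incr (S : Finset Edg) (n : ℤ) : IncrE S (CA n) := by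
  rintro F G h _ ⟨v, h1, h2⟩
  exact ⟨v, h1, h2.mono (Set.inter_subset_inter_left _ (by exact_mod_cast h))⟩

theorem QA_incr (S : Finset Edg) (m n : ℤ) : IncrE S (QA m n) := by
  rintro F G h _ ⟨u, v, h1, h2, h3⟩
  exact ⟨u, v, h1, h2, h3.mono (Set.inter_subset_inter_left _ (by exact_mod_cast h))⟩

theorem QI_incr (S : Finset Edg) (a b n : ℤ) : IncrE S (QI a b n) := by
  rintro F G h _ ⟨u, v, h1, h2, h3⟩
  exact ⟨u, v, h1, h2, h3.mono (Set.inter_subset_inter_left _ (by exact_mod_cast h))⟩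

theorem VI_incr (S : Finset Edg) (a b A B h : ℤ) : IncrE S (VI a b A B h) := by
  rintro F G hh _ ⟨u, v, h1, h2, h3⟩
  exact ⟨u, v, h1, h2, h3.mono (Set.inter_subset_inter_left _ (by exact_mod_cast hh))⟩

theorem VT_incr (S : Finset Edg) (a b m n h : ℤ) : IncrE S (VT a b m n h) := by
  rintro F G hh _ ⟨u, v, h1, h2, h3⟩
  exact ⟨u, v, h1, h2, h3.mono (Set.inter_subset_inter_left _ (by exact_mod_cast hh))⟩

theorem BT_incr (S : Finset Edg) (a b a' b' m n : ℤ) : IncrE S (BT a b a' b' m n) := by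
  rintro F G hh _ ⟨u, v, h1, h2, h3⟩
  exact ⟨u, v, h1, h2, h3.mono (Set.inter_subset_inter_left _ (by exact_mod_cast hh))⟩

/-- Monotonicity in the rectangle. -/
theorem RE_mono4 {a b c d a' b' c' d' : ℤ} (h1 : a' ≤ a) (h2 : b ≤ b') (h3 : c' ≤ c)
    (h4 : d ≤ d') : RE a b c d ⊆ RE a' b' c' d' := by
  rintro ⟨x, y, _ | _⟩ he
  · rw [mem_RE_false] at he ⊢
    omega
  · rw [mem_RE_true] at he ⊢
    omega

/-- An event which only depends on `F ∩ R` has the same probability for all `S ⊇ R`. -/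
theorem P2_local {R S : Finset Edg} (hS : R ⊆ S) {A : Finset Edg → Prop}
    (hA : ∀ F : Finset Edg, A F ↔ A (F ∩ R)) : P2 S A = P2 R A :=
  (congrArg (P2 S) (funext fun F => propext (hA F))).trans (P2_restrict hS A)

end H731R
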