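import Pool.Agent.H731R3.Rect.Defs

/-!
Task C: long rectangles.
-/

namespace H731R

open H974 H731C Finset

namespace CLong

/-- wide rectangles -/
theorem hh_two {h : ℤ} (hh1 : 1 ≤ h) : (1/2 : ℝ) ^ 47 ≤ hh (1/2) (2 * h) h := by
  rcases eq_or_lt_of_le hh1 with h1 | h1
  · rw [← h1]
    have h2 := hh_half 1 (by norm_num)
    have e : (2 : ℤ) * 1 = 1 + 1 := by norm_num
    rw [e, h2]
    norm_num
  · exact rsw (n := h / 2) (by omega) (by omega) (by omega) (by omega)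

theorem hh_long (k : ℕ) : ∃ c : ℝ, 0 < c ∧ ∀ h : ℤ, 1 ≤ h →
    c ≤ hh (1/2) (((k : ℤ) + 1) * h) h := by
  induction k with
  | zero =>
    refine ⟨1/2, by norm_num, ?_⟩
    intro h hh1
    have := hh_square h (by omega)
    simpa using this
  | succ k ih =>
    obtain ⟨c, hc, hk⟩ := ih
    refine ⟨c * (1/2) ^ 47 * (1/2), by positivity, ?_⟩
    intro h hh1
    have h1 := hh_glue (q := 1/2) (by norm_num) (by norm_num) (w1 := ((k : ℤ) + 1) * h)
      (w2 := 2 * h) (v := h) (h := h) (by omega) (by nlinarith [Int.natCast_nonneg k])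
      (by omega) (by omega)
    have e : ((k : ℤ) + 1) * h + 2 * h - h = (((k + 1 : ℕ) : ℤ) + 1) * h := by
      push_cast
      ring
    rw [e] at h1
    refine le_trans ?_ h1
    have a1 := hk h hh1
    have a2 := hh_two hh1
    have a3 := hh_square h (by omega)
    have p47 : (0 : ℝ) ≤ (1/2 : ℝ)^47 := by positivity
    exact mul_le_mul (mul_le_mul a1 a2 p47 (hc.le.trans a1)) a3 (by norm_num)
      (mul_nonneg (hc.le.trans a1) (p47.trans a2))

theorem hh_long' (K : ℕ) : ∃ c : ℝ, 0 < c ∧ ∀ w h : ℤ, 0 < w → 1 ≤ h → w ≤ K * h →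
    c ≤ hh (1/2) w h := by
  obtain ⟨c, hc, hk⟩ := hh_long K
  refine ⟨c, hc, ?_⟩
  intro w h hw hh1 hwK
  exact (hk h hh1).trans (hh_mono (by norm_num) (by norm_num) hw (by nlinarith) le_rfl)

theorem pr_line (W : ℤ) (w : ℕ) (hw : (w : ℤ) ≤ W) :
    (1/2 : ℝ) ^ w ≤ P2 (RE 0 W 0 0) (LRc 0 w 0 0) := by
  induction w with
  | zero =>
    rw [pow_zero]
    unfold P2
    rw [Pr_true]
    intro F _
    exact ⟨0, 0, by simp, by simp, Reach.refl _ _⟩
  | succ w ih =>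
    push_cast at hw
    have h1 := ih (by omega)
    have he : ((w : ℤ), (0 : ℤ), true) ∈ RE 0 W 0 0 := by
      rw [mem_RE_true]
      omega
    have h2 := P2_edge he
    have h3 := Pr_harris okhalf2 (LRc_incr (RE 0 W 0 0) 0 w 0 0)
      (B := fun F => ((w : ℤ), (0 : ℤ), true) ∈ F)
      (fun F G hFG _ hF => hFG hF)
    have h4 : Pr (fun _ => (1/2 : ℝ)) (RE 0 W 0 0)
        (fun F => LRc 0 w 0 0 F ∧ ((w : ℤ), (0 : ℤ), true) ∈ F) ≤
        P2 (RE 0 W 0 0) (LRc 0 ((w + 1 : ℕ) : ℤ) 0 0) := by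
      apply Pr_mono okhalf2
      rintro F _ ⟨⟨y, y', hy, hy', hr⟩, hF⟩
      refine ⟨y, y', hy, hy', ?_⟩
      have e : y' = 0 := by omega
      subst e
      refine (hr.mono ?_).trans (Adj.reach ⟨((w : ℤ), (0 : ℤ), true), ⟨hF, ?_⟩,
        Or.inl ⟨rfl, ?_⟩⟩)
      · rintro ⟨x, y, _ | _⟩ ⟨h5, h6⟩
        · refine ⟨h5, ?_⟩
          rw [mem_coe, mem_LRE_false] at h6 ⊢
          omega
        · refine ⟨h5, ?_⟩
          rw [mem_coe, mem_LRE_true] at h6 ⊢
          push_cast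
          omega
      · rw [mem_coe, mem_LRE_true]
        omega
      · push_cast
        rfl
    refine le_trans ?_ h4
    refine le_trans ?_ h3
    have h5 : Pr (fun _ => (1/2 : ℝ)) (RE 0 W 0 0)
      (fun F => ((w : ℤ), (0 : ℤ), true) ∈ F) = 1/2 := h2
    rw [h5, pow_succ]
    exact mul_le_mul_of_nonneg_right h1 (by norm_num)

theorem hh_line (w : ℕ) : (1/2 : ℝ) ^ w ≤ hh (1/2) w 0 := by
  have h1 := pr_line w w le_rfl
  have h2 := pr_LRc (1/2) (a := 0) (b := (w : ℤ)) (c := 0) (d := 0) (S := RE 0 w 0 0)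
    LRE_subset_RE
  unfold P2 at h1
  rw [h2] at h1
  simpa using h1

end CLong

open CLong

theorem LR_long (K : ℕ) : ∃ c : ℝ, 0 < c ∧ ∀ a b c' d : ℤ, a < b → 1 ≤ d - c' →
    b - a ≤ K * (d - c') → ∀ S : Finset Edg, RE a b c' d ⊆ S → c ≤ P2 S (LRc a b c' d) := by
  obtain ⟨c, hc, hk⟩ := hh_long' K
  refine ⟨c, hc, ?_⟩
  intro a b c' d hab hcd hK S hS
  unfold P2
  rw [pr_LRc (1/2) (LRE_subset_RE.trans hS)]
  exact hk (b - a) (d - c') (by omega) hcd hK

theorem TB_long (K : ℕ) : ∃ c : ℝ, 0 < c ∧ ∀ a b c' d : ℤ, c' < d → 1 ≤ b - a →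
    d - c' ≤ K * (b - a) → ∀ S : Finset Edg, RE a b c' d ⊆ S → c ≤ P2 S (TBc a b c' d) := by
  obtain ⟨c, hc, hk⟩ := hh_long' K
  refine ⟨c, hc, ?_⟩
  intro a b c' d hab hcd hK S hS
  unfold P2
  rw [pr_TBc (1/2) (TBE_subset_RE.trans hS)]
  exact hk (d - c') (b - a) (by omega) hcd hK

/-- the complement: no top-bottom crossing, with probability bounded from below -/
theorem TB_lt_one (K : ℕ) : ∃ c : ℝ, 0 < c ∧ ∀ m n : ℤ, 1 ≤ m → 1 ≤ n → m ≤ K * n →
    ∀ S : Finset Edg, RE 0 m 0 n ⊆ S → P2 S (TBc 0 m 0 n) ≤ 1 - c := by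
  obtain ⟨c, hc, hk⟩ := hh_long' (2 * K + 1)
  refine ⟨min c ((1/2) ^ (K + 1)), lt_min hc (by positivity), ?_⟩
  intro m n hm hn hmn S hS
  unfold P2
  rw [pr_TBc (1/2) (TBE_subset_RE.trans hS)]
  have h1 := hh_dual (q := 1/2) (w := n - 0) (h := m - 0) (by omega) (by omega)
  rw [h1]
  have e : (1 : ℝ) - 1/2 = 1/2 := by norm_num
  rw [e]
  have h2 : min c ((1/2 : ℝ) ^ (K + 1)) ≤ hh (1/2) (m - 0 + 1) (n - 0 - 1) := by
    rcases eq_or_lt_of_le hn with h3 | h3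
    · refine (min_le_right _ _).trans ?_
      rw [← h3]
      have h4 := hh_line (K + 1)
      refine h4.trans ?_
      have e2 : (1 : ℤ) - 0 - 1 = 0 := by norm_num
      rw [e2]
      apply hh_mono (by norm_num) (by norm_num) (by omega) _ le_rfl
      push_cast
      rw [← h3] at hmn
      omega
    · refine (min_le_left _ _).trans ?_
      apply hk (m - 0 + 1) (n - 0 - 1) (by omega) (by omega)
      push_cast
      nlinarith [Int.natCast_nonneg K]
  linarith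

end H731R
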