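import Pool.Agent.H731R3.Rect.Defs

/-!
# Quarter-circuits
-/

namespace H731R

open H974 H731C Finset

theorem QC_incr (S : Finset Edg) (r : ℤ) : IncrE S (QC r) := by
  rintro F G h _ ⟨h1, h2⟩
  exact ⟨h1.mono h, h2.mono h⟩

theorem pr_QC {r : ℤ} (hr : 1 ≤ r) {S : Finset Edg} (hS : RE 0 (3 * r) 0 (3 * r) ⊆ S) :
    (1/2 : ℝ) ^ 94 ≤ P2 S (QC r) := by
  have s1 : LRE 0 (3 * r) r (3 * r) ⊆ S :=
    (LRE_subset_RE.trans (RE_mono4 le_rfl le_rfl (by omega) le_rfl)).trans hS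
  have s2 : TBE r (3 * r) 0 (3 * r) ⊆ S :=
    (TBE_subset_RE.trans (RE_mono4 (by omega) le_rfl le_rfl le_rfl)).trans hS
  have e1 := pr_LRc (1/2) s1
  have e2 := pr_TBc (1/2) s2
  have k1 : (1/2 : ℝ)^47 ≤ Pr (fun _ => (1/2 : ℝ)) S (LRc 0 (3 * r) r (3 * r)) := by
    rw [e1]; exact rsw (n := r) (by omega) (by omega) (by omega) (by omega)
  have k2 : (1/2 : ℝ)^47 ≤ Pr (fun _ => (1/2 : ℝ)) S (TBc r (3 * r) 0 (3 * r)) := by
    rw [e2]; exact rsw (n := r) (by omega) (by omega) (by omega) (by omega)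
  have i2 := Pr_harris okhalf2 (LRc_incr S 0 (3 * r) r (3 * r)) (TBc_incr S r (3 * r) 0 (3 * r))
  have p47 : (0 : ℝ) ≤ (1/2 : ℝ)^47 := by positivity
  calc (1/2 : ℝ) ^ 94 = (1/2 : ℝ)^47 * (1/2 : ℝ)^47 := by ring
    _ ≤ Pr (fun _ => (1/2 : ℝ)) S (LRc 0 (3 * r) r (3 * r)) *
        Pr (fun _ => (1/2 : ℝ)) S (TBc r (3 * r) 0 (3 * r)) :=
        mul_le_mul k1 k2 p47 (p47.trans k1)
    _ ≤ _ := i2

theorem QC_meet {r : ℤ} (hr : 1 ≤ r) {F : Finset Edg} (h : QC r F) :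
    ∃ f : ℤ, (r ≤ f ∧ f ≤ 3 * r) ∧
      ∀ u v : Vtx, inR 0 r 0 r u → onQ (3 * r) v →
        Reach (↑F ∩ ↑(RE 0 (3 * r) 0 (3 * r))) u v →
        Reach (↑F ∩ ↑(RE 0 (3 * r) 0 (3 * r))) u (f, 0) := by
  obtain ⟨⟨s, s', hs, hs', hT0⟩, ⟨f, f', hf1, hf2, hR0⟩⟩ := h
  have hT : Reach ((↑F : Set Edg) ∩ ↑(RE 0 (3 * r) r (3 * r))) (0, s) (3 * r, s') :=
    hT0.mono (Set.inter_subset_inter_right _ (by exact_mod_cast LRE_subset_RE))
  have hR : Reach ((↑F : Set Edg) ∩ ↑(RE r (3 * r) 0 (3 * r))) (f, 0) (f', 3 * r) :=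
    hR0.mono (Set.inter_subset_inter_right _ (by exact_mod_cast TBE_subset_RE))
  have mTR : Reach ((↑F : Set Edg) ∩ ↑(RE 0 (3 * r) 0 (3 * r))) (0, s) (f, 0) :=
    cross_meet (by omega) (by omega) le_rfl (by omega) (by omega) le_rfl hT
      (by simp only; omega) le_rfl hR (by simp only; omega) le_rfl
  refine ⟨f, hf1, ?_⟩
  intro u v hu hv hP
  unfold inR at hu
  unfold onQ at hv
  rcases hv with hv | hv
  · exact cross_meet (by omega) (by omega) le_rfl le_rfl (by omega) le_rfl hP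
      (show u.1 ≤ r by omega) hv.ge hR le_rfl le_rfl
  · have m : Reach ((↑F : Set Edg) ∩ ↑(RE 0 (3 * r) 0 (3 * r))) (0, s) u :=
      cross_meet le_rfl (by omega) le_rfl (by omega) (by omega) le_rfl hT le_rfl le_rfl hP
        (by omega) hv.ge
    exact m.symm.trans mTR

end H731R
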