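import Pool.Agent.H731R3.Rect.Long
import Pool.Agent.H731R3.Rect.Defs

/-!
# Task E: an interval far from the corner to height `h`, lower bound
-/

namespace H731R

open H974 H731C Finset

namespace TE

/-- gluing of the arm of the interval and the vertical crossing through the half-circuit -/
theorem glueE {a a' b r h z : ℤ} (hr : 1 ≤ r) (h3 : 3 * r ≤ h) (haa : a ≤ a')
    (hz : a' ≤ z ∧ z ≤ b) (hl : b - a' + 1 ≤ r) {F : Finset Edg}
    (h1 : IA a' b z 0 (3 * r) F) (h2 : HC z 0 r F) (h4 : TBc (z - r) (z + r) 0 h F) :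
    VI a b (b - 6 * r) (b + 6 * r) h F := by
  obtain ⟨x, v, hx, hv, hxv⟩ := h1
  obtain ⟨fl, fr, -, -, hmeet⟩ := HC_meet hr h2
  obtain ⟨x', x'', hx', hx'', hT⟩ := h4
  have e1 : Reach (↑F ∩ ↑(RE (z - 3 * r) (z + 3 * r) 0 (0 + 3 * r))) (x, 0) v :=
    hxv.mono (Set.inter_subset_inter_right _ (by exact_mod_cast VE_subset_RE))
  have i1 : inR (z - r) (z + r) 0 (0 + r) (x, 0) := by
    unfold inR
    simp only
    omega
  have f1 := (hmeet (x, 0) v i1 hv e1).1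
  have e2 : Reach (↑F ∩ ↑(RE (z - h) (z + h) 0 (0 + h))) (x', 0) (x'', h) := by
    refine hT.mono (Set.inter_subset_inter_right _ ?_)
    have : TBE (z - r) (z + r) 0 h ⊆ RE (z - h) (z + h) 0 (0 + h) :=
      TBE_subset_RE.trans (RE_mono4 (by omega) (by omega) le_rfl (by omega))
    exact_mod_cast this
  obtain ⟨w, hw, hrw⟩ := TC.exitH (z := z) (t := 0) (m := 3 * r) (n := h) (u := (x', 0))
    (v := (x'', h)) (F := F) h3
    (by unfold inR; simp only; omega) (by unfold onH; simp only; omega) e2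
  have i2 : inR (z - r) (z + r) 0 (0 + r) (x', 0) := by
    unfold inR
    simp only
    omega
  have f2 := (hmeet (x', 0) w i2 hw hrw).1
  have s1 : (↑F : Set Edg) ∩ ↑(RE (z - 3 * r) (z + 3 * r) 0 (0 + 3 * r)) ⊆
      ↑F ∩ ↑(RE (b - 6 * r) (b + 6 * r) 0 h) :=
    Set.inter_subset_inter_right _
      (by exact_mod_cast RE_mono4 (by omega) (by omega) le_rfl (by omega))
  have s2 : (↑F : Set Edg) ∩ ↑(TBE (z - r) (z + r) 0 h) ⊆
      ↑F ∩ ↑(RE (b - 6 * r) (b + 6 * r) 0 h) := by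
    have : TBE (z - r) (z + r) 0 h ⊆ RE (b - 6 * r) (b + 6 * r) 0 h :=
      TBE_subset_RE.trans (RE_mono4 (by omega) (by omega) le_rfl le_rfl)
    exact Set.inter_subset_inter_right _ (by exact_mod_cast this)
  exact ⟨x, x'', by omega, by omega, ((f1.mono s1).trans (f2.symm.mono s1)).trans (hT.mono s2)⟩

end TE

theorem VI_lower (K : ℕ) : ∃ c : ℝ, 0 < c ∧ ∀ a b r h : ℤ, 1 ≤ r → a ≤ b → 3 * r ≤ h →
    h ≤ K * r → ∀ S : Finset Edg, RE (b - 6 * r) (b + 6 * r) 0 h ⊆ S →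
    c * (((min (b - a + 1) r : ℤ) : ℝ) / r) ^ ((1 : ℝ) / 3) ≤
      P2 S (VI a b (b - 6 * r) (b + 6 * r) h) := by
  obtain ⟨c0, hc0, hI⟩ := IA_lower
  obtain ⟨c1, hc1, hT⟩ := TB_long K
  refine ⟨c0 / 2 * ((1/2 : ℝ) ^ 141 * c1), by positivity, ?_⟩
  intro a b r h hr hab h3 hK S hS
  set l : ℤ := min (b - a + 1) r with hl
  have hl1 : 1 ≤ l := by omega
  have hl2 : l ≤ r := by omega
  have hl3 : l ≤ b - a + 1 := by omega
  obtain ⟨z, hz, hz2⟩ := hI (b - l + 1) b 0 (3 * r) (by omega) (by omega)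
  have hrR : (1 : ℝ) ≤ r := by exact_mod_cast hr
  have hr0 : (0 : ℝ) < r := by linarith
  have hl0 : (0 : ℝ) ≤ l := by
    have : (0 : ℤ) ≤ l := by omega
    exact_mod_cast this
  have sV : VE (z - 3 * r) (z + 3 * r) 0 (0 + 3 * r) ⊆ S :=
    VE_subset_RE.trans ((RE_mono4 (by omega) (by omega) le_rfl (by omega)).trans hS)
  have p1 := hz2 S sV
  have p2 := pr_HC (z := z) (t := 0) hr (S := S) sV
  have p3 := hT (z - r) (z + r) 0 h (by omega) (by omega)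
    (by
      have hKr : (0 : ℤ) ≤ (K : ℤ) * r := by positivity
      have e : (K : ℤ) * (z + r - (z - r)) = 2 * (K * r) := by ring
      rw [e]
      omega) S
    ((RE_mono4 (by omega) (by omega) le_rfl le_rfl).trans hS)
  have q1 : P2 S (HC z 0 r) * P2 S (TBc (z - r) (z + r) 0 h) ≤
      P2 S (fun F => HC z 0 r F ∧ TBc (z - r) (z + r) 0 h F) :=
    Pr_harris okhalf2 (HC_incr S _ _ _) (TBc_incr S _ _ _ _)
  have c2 : IncrE S (fun F => HC z 0 r F ∧ TBc (z - r) (z + r) 0 h F) :=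
    fun F G hFG hG hF => ⟨HC_incr S _ _ _ F G hFG hG hF.1, hF.2.mono hFG⟩
  have q2 : P2 S (IA (b - l + 1) b z 0 (3 * r)) *
      P2 S (fun F => HC z 0 r F ∧ TBc (z - r) (z + r) 0 h F) ≤
      P2 S (fun F => IA (b - l + 1) b z 0 (3 * r) F ∧
        (HC z 0 r F ∧ TBc (z - r) (z + r) 0 h F)) :=
    Pr_harris okhalf2 (IA_incr S _ _ _ _ _) c2
  have q3 : P2 S (fun F => IA (b - l + 1) b z 0 (3 * r) F ∧
        (HC z 0 r F ∧ TBc (z - r) (z + r) 0 h F)) ≤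
      P2 S (VI a b (b - 6 * r) (b + 6 * r) h) := by
    apply Pr_mono okhalf2
    rintro F _ ⟨hF1, hF2, hF3⟩
    exact TE.glueE hr h3 (by omega) (by omega) (by omega) hF1 hF2 hF3
  have hα : b - (b - l + 1) + 1 = l := by ring
  rw [hα] at p1
  have h5 : ((l : ℝ) / r) ^ ((1 : ℝ) / 3) ≤ 2 * ((l : ℝ) / ((3 * r : ℤ) : ℝ)) ^ ((1 : ℝ) / 3) := by
    apply cube_root_le (k := 3) (by positivity) _ (by norm_num) _ (by norm_num)
    · push_cast
      positivity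
    · push_cast
      apply le_of_eq
      field_simp
  have h6 : 0 ≤ ((l : ℝ) / ((3 * r : ℤ) : ℝ)) ^ ((1 : ℝ) / 3) := by
    apply Real.rpow_nonneg
    push_cast
    positivity
  have h7 : 0 ≤ ((l : ℝ) / r) ^ ((1 : ℝ) / 3) := by positivity
  calc c0 / 2 * ((1/2 : ℝ) ^ 141 * c1) * ((l : ℝ) / r) ^ ((1 : ℝ) / 3)
      ≤ c0 / 2 * ((1/2 : ℝ) ^ 141 * c1) * (2 * ((l : ℝ) / ((3 * r : ℤ) : ℝ)) ^ ((1 : ℝ) / 3)) :=
        mul_le_mul_of_nonneg_left h5 (by positivity)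
    _ = (c0 * ((l : ℝ) / ((3 * r : ℤ) : ℝ)) ^ ((1 : ℝ) / 3)) * ((1/2 : ℝ) ^ 141 * c1) := by ring
    _ ≤ P2 S (IA (b - l + 1) b z 0 (3 * r)) *
        (P2 S (HC z 0 r) * P2 S (TBc (z - r) (z + r) 0 h)) := by
        apply mul_le_mul p1 (mul_le_mul p2 p3 hc1.le (Pr_nonneg okhalf2 _ _)) (by positivity)
          (Pr_nonneg okhalf2 _ _)
    _ ≤ P2 S (IA (b - l + 1) b z 0 (3 * r)) *
        P2 S (fun F => HC z 0 r F ∧ TBc (z - r) (z + r) 0 h F) :=
        mul_le_mul_of_nonneg_left q1 (Pr_nonneg okhalf2 _ _)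
    _ ≤ _ := q2.trans q3

end H731R
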