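import Pool.Agent.H731R3.Rect.QInt
import Pool.Agent.H731R3.Rect.VInt
import Pool.Agent.H731R3.Rect.Defs
import Pool.Agent.H731R3.Rect.Long
import Pool.Agent.H731R3.Rect.QCirc

/-!
Task I: lower bound along the whole side.
-/

namespace H731R

open H974 H731C Finset

namespace HLow

/-- a vertical open segment -/
theorem pr_vert {m h b : ℤ} (hb0 : 0 ≤ b) (hbm : b ≤ m) {S : Finset Edg}
    (hS : RE 0 m 0 h ⊆ S) (j : ℕ) (hj : (j : ℤ) ≤ h) :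
    (1/2 : ℝ) ^ j ≤ P2 S (fun F => Reach (↑F ∩ ↑(RE 0 m 0 h)) (b, 0) (b, (j : ℤ))) := by
  induction j with
  | zero =>
    rw [pow_zero]
    unfold P2
    rw [Pr_true]
    intro F _
    exact Reach.refl _ _
  | succ j ih =>
    push_cast at hj
    have h1 := ih (by omega)
    have he0 : (b, (j : ℤ), false) ∈ RE 0 m 0 h := by
      rw [mem_RE_false]
      omega
    have he : (b, (j : ℤ), false) ∈ S := hS he0
    have h2 := P2_edge he
    have n1 : IncrE S (fun F => Reach (↑F ∩ ↑(RE 0 m 0 h)) (b, 0) (b, (j : ℤ))) :=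
      fun F G hFG _ hF => hF.mono (Set.inter_subset_inter_left _ (by exact_mod_cast hFG))
    have h3 := Pr_harris okhalf2 n1 (B := fun F => (b, (j : ℤ), false) ∈ F)
      (fun F G hFG _ hF => hFG hF)
    have h4 : Pr (fun _ => (1/2 : ℝ)) S
        (fun F => Reach (↑F ∩ ↑(RE 0 m 0 h)) (b, 0) (b, (j : ℤ)) ∧
          (b, (j : ℤ), false) ∈ F) ≤
        P2 S (fun F => Reach (↑F ∩ ↑(RE 0 m 0 h)) (b, 0) (b, ((j + 1 : ℕ) : ℤ))) := by
      apply Pr_mono okhalf2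
      rintro F _ ⟨hr, hF⟩
      refine hr.trans (Adj.reach ⟨(b, (j : ℤ), false), ⟨hF, he0⟩, Or.inl ⟨rfl, ?_⟩⟩)
      push_cast
      rfl
    refine le_trans ?_ h4
    refine le_trans ?_ h3
    have h5 : Pr (fun _ => (1/2 : ℝ)) S (fun F => (b, (j : ℤ), false) ∈ F) = 1/2 := h2
    rw [h5, pow_succ]
    exact mul_le_mul_of_nonneg_right h1 (by norm_num)

theorem VI_sub {a b b1 A B m h : ℤ} (hb : b1 ≤ b) (hA : 0 ≤ A) (hB : B ≤ m) {F : Finset Edg}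
    (hF : VI a b1 A B h F) : VI a b 0 m h F := by
  obtain ⟨x, y, hx, hy, hr⟩ := hF
  refine ⟨x, y, by omega, by omega, hr.mono (Set.inter_subset_inter_right _ ?_)⟩
  exact_mod_cast RE_mono4 hA hB le_rfl le_rfl

theorem corner_det {a b b1 m h R : ℤ} (hR : 1 ≤ R) (ha : 0 ≤ a) (hb1 : b1 ≤ R) (hb : b1 ≤ b)
    (hm : 3 * R ≤ m) (hh : 3 * R ≤ h) {F : Finset Edg} (g1 : QI a b1 (3 * R) F)
    (g2 : QC R F) (g3 : TBc 0 R 0 h F) : VI a b 0 m h F := by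
  obtain ⟨x, v, hx, hv, r1⟩ := g1
  obtain ⟨f, hf, hmeet⟩ := QC_meet hR g2
  obtain ⟨t, t', ht, ht', r3⟩ := g3
  have m1 : Reach (↑F ∩ ↑(RE 0 (3 * R) 0 (3 * R))) (x, 0) (f, 0) :=
    hmeet (x, 0) v ⟨⟨by show 0 ≤ x; omega, by show x ≤ R; omega⟩, le_refl _,
      by show (0 : ℤ) ≤ R; omega⟩ hv r1
  have r3' : Reach (↑F ∩ ↑(RE 0 R 0 h)) (t, 0) (t', h) :=
    r3.mono (Set.inter_subset_inter_right _ (by exact_mod_cast TBE_subset_RE))
  obtain ⟨w, hw1, hw2, hw3⟩ := first_exit (a := -1) (b := 3 * R) (c := -1) (d := 3 * R)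
      (u := (t, 0)) (v := (t', h)) ⟨⟨by show -1 ≤ t; omega, by show t ≤ 3 * R; omega⟩,
        by show (-1 : ℤ) ≤ 0; omega, by show (0 : ℤ) ≤ 3 * R; omega⟩ r3'
      (by right; right; right; show 3 * R ≤ h; omega)
  have hw4 : inR 0 R 0 h w := by
    refine reach_inR (G := (↑F : Set Edg) ∩ ↑(RE (-1) (3 * R) (-1) (3 * R)))
      (u := (t, 0)) ⟨⟨by show 0 ≤ t; omega, by show t ≤ R; omega⟩, le_refl _,
        by show (0 : ℤ) ≤ h; omega⟩ (hw3.mono ?_)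
    rintro e ⟨⟨k1, k2⟩, k3⟩
    exact ⟨⟨k1, k3⟩, k2⟩
  unfold inR at hw4 hw1
  have hw5 : w.2 = 3 * R := by omega
  have r4 : Reach (↑F ∩ ↑(RE 0 (3 * R) 0 (3 * R))) (t, 0) w := by
    refine hw3.mono ?_
    rintro ⟨x, y, _ | _⟩ ⟨⟨k1, k2⟩, k3⟩
    · refine ⟨k1, ?_⟩
      rw [mem_coe, mem_RE_false] at k2 k3 ⊢
      omega
    · refine ⟨k1, ?_⟩
      rw [mem_coe, mem_RE_true] at k2 k3 ⊢
      omega
  have m2 : Reach (↑F ∩ ↑(RE 0 (3 * R) 0 (3 * R))) (t, 0) (f, 0) :=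
    hmeet (t, 0) w ⟨⟨by show 0 ≤ t; omega, by show t ≤ R; omega⟩, le_refl _,
      by show (0 : ℤ) ≤ R; omega⟩ (Or.inr hw5) r4
  have s1 : (↑F : Set Edg) ∩ ↑(RE 0 (3 * R) 0 (3 * R)) ⊆ ↑F ∩ ↑(RE 0 m 0 h) :=
    Set.inter_subset_inter_right _ (by exact_mod_cast RE_mono4 le_rfl hm le_rfl hh)
  have s2 : (↑F : Set Edg) ∩ ↑(RE 0 R 0 h) ⊆ ↑F ∩ ↑(RE 0 m 0 h) :=
    Set.inter_subset_inter_right _ (by
      exact_mod_cast RE_mono4 le_rfl (by omega) le_rfl le_rfl)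
  exact ⟨x, t', by omega, by omega, (m1.mono s1).trans ((m2.symm.mono s1).trans
    (r3'.mono s2))⟩

theorem fourth_le {x : ℝ} (hx : 0 ≤ x) :
    (1/4 : ℝ) * x ^ ((1 : ℝ) / 3) ≤ ((1/4 : ℝ) * x) ^ ((1 : ℝ) / 3) := by
  rw [Real.mul_rpow (by norm_num) hx]
  apply mul_le_mul_of_nonneg_right _ (Real.rpow_nonneg hx _)
  have h1 : ((1/4 : ℝ)) ^ (1 : ℝ) ≤ (1/4 : ℝ) ^ ((1 : ℝ) / 3) :=
    Real.rpow_le_rpow_of_exponent_ge (by norm_num) (by norm_num) (by norm_num)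
  rwa [Real.rpow_one] at h1

end HLow

open HLow

theorem VI_lower_side (K : ℕ) : ∃ c : ℝ, 0 < c ∧ ∀ a b m h : ℤ, 0 ≤ a → a ≤ b → b ≤ m →
    a ≤ m - b → 1 ≤ m → 1 ≤ h → m ≤ K * h → h ≤ K * m → ∀ S : Finset Edg, RE 0 m 0 h ⊆ S →
    c * ((((b - a + 1 : ℤ) : ℝ) * ((b + 1 : ℤ) : ℝ)) / ((m + 1 : ℤ) : ℝ) ^ 2)
        ^ ((1 : ℝ) / 3) ≤ P2 S (VI a b 0 m h) := by
  obtain ⟨cE, hcE, kE⟩ := VI_lower (48 * (K + 1))
  obtain ⟨cF, hcF, kF⟩ := QI_lower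
  obtain ⟨cT, hcT, kT⟩ := TB_long (48 * (K + 1))
  refine ⟨min ((1/2) ^ (24 * (K + 1))) (min cE (cF * (1/2) ^ 94 * cT * (1/4))),
    lt_min (by positivity) (lt_min hcE (by positivity)), ?_⟩
  intro a b m h ha hab hbm ham hm hh hmK hhK S hS
  set X : ℝ := (((b - a + 1 : ℤ) : ℝ) * ((b + 1 : ℤ) : ℝ)) / ((m + 1 : ℤ) : ℝ) ^ 2 with hX
  have hm1 : (0 : ℝ) < ((m + 1 : ℤ) : ℝ) := by exact_mod_cast (by omega : (0 : ℤ) < m + 1)
  have hl0 : (0 : ℝ) ≤ ((b - a + 1 : ℤ) : ℝ) := by exact_mod_cast (by omega : (0 : ℤ) ≤ b - a + 1)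
  have hb0 : (0 : ℝ) ≤ ((b + 1 : ℤ) : ℝ) := by exact_mod_cast (by omega : (0 : ℤ) ≤ b + 1)
  have hlm : ((b - a + 1 : ℤ) : ℝ) ≤ ((m + 1 : ℤ) : ℝ) := by
    exact_mod_cast (by omega : b - a + 1 ≤ m + 1)
  have hbm' : ((b + 1 : ℤ) : ℝ) ≤ ((m + 1 : ℤ) : ℝ) := by
    exact_mod_cast (by omega : b + 1 ≤ m + 1)
  have hX0 : 0 ≤ X := by positivity
  have hX1 : X ≤ 1 := by
    rw [hX, div_le_one (by positivity), sq]
    exact mul_le_mul hlm hbm' hb0 hm1.le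
  have hX3 : X ^ ((1 : ℝ) / 3) ≤ 1 := Real.rpow_le_one hX0 hX1 (by norm_num)
  have hX30 : 0 ≤ X ^ ((1 : ℝ) / 3) := Real.rpow_nonneg hX0 _
  by_cases hsmall : m < 24 ∨ h < 24
  · -- small case
    have hh24 : h ≤ ((24 * (K + 1) : ℕ) : ℤ) := by
      push_cast
      rcases hsmall with h1 | h1
      · nlinarith [Int.natCast_nonneg K]
      · nlinarith [Int.natCast_nonneg K]
    obtain ⟨j, hj⟩ := Int.eq_ofNat_of_zero_le (by omega : 0 ≤ h)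
    have h1 := pr_vert (m := m) (h := h) (b := b) (by omega) hbm hS j (by omega)
    have h2 : P2 S (fun F => Reach (↑F ∩ ↑(RE 0 m 0 h)) (b, 0) (b, (j : ℤ))) ≤
        P2 S (VI a b 0 m h) := by
      apply Pr_mono okhalf2
      intro F _ hF
      refine ⟨b, b, ⟨hab, le_rfl⟩, ⟨by omega, hbm⟩, ?_⟩
      rw [hj]
      rw [hj] at hF
      exact hF
    have h3 : (1/2 : ℝ) ^ (24 * (K + 1)) ≤ (1/2 : ℝ) ^ j :=
      pow_le_pow_of_le_one (by norm_num) (by norm_num) (by omega)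
    calc _ ≤ (1/2 : ℝ) ^ (24 * (K + 1)) * 1 :=
          mul_le_mul (min_le_left _ _) hX3 hX30 (by positivity)
      _ = (1/2 : ℝ) ^ (24 * (K + 1)) := mul_one _
      _ ≤ _ := h3.trans (h1.trans h2)
  · push Not at hsmall
    obtain ⟨hm24, hh24⟩ := hsmall
    obtain ⟨r, hr1, hrm, hrh, hr48⟩ : ∃ r : ℤ, 1 ≤ r ∧ 24 * r ≤ m ∧ 24 * r ≤ h ∧
        min m h < 48 * r := by
      refine ⟨(min m h) / 24, ?_, ?_, ?_, ?_⟩ <;> omega
    have hhr : h ≤ ((48 * (K + 1) : ℕ) : ℤ) * r := by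
      push_cast
      rcases le_total m h with h1 | h1
      · rw [min_eq_left h1] at hr48
        nlinarith [Int.natCast_nonneg K]
      · rw [min_eq_right h1] at hr48
        nlinarith [Int.natCast_nonneg K]
    obtain ⟨b1, hb1b, hb1m, hab1, hl1, hb11⟩ : ∃ b1 : ℤ, b1 ≤ b ∧ 2 * b1 ≤ m ∧ a ≤ b1 ∧
        b - a + 1 ≤ 2 * (b1 - a + 1) ∧ b + 1 ≤ 2 * (b1 + 1) := by
      refine ⟨min b (m / 2), ?_, ?_, ?_, ?_, ?_⟩ <;> omega
    by_cases hc : 6 * r ≤ b1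
    · have h1 := kE a b1 r h hr1 hab1 (by omega) hhr S
        ((RE_mono4 (by omega) (by omega) le_rfl le_rfl).trans hS)
      have h2 : P2 S (VI a b1 (b1 - 6 * r) (b1 + 6 * r) h) ≤ P2 S (VI a b 0 m h) := by
        apply Pr_mono okhalf2
        intro F _ hF
        exact VI_sub hb1b (by omega) (by omega) hF
      have hr0 : (0 : ℝ) < r := by exact_mod_cast (by omega : (0 : ℤ) < r)
      have h3 : X ≤ ((min (b1 - a + 1) r : ℤ) : ℝ) / r := by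
        have h4 : X ≤ ((b - a + 1 : ℤ) : ℝ) / ((m + 1 : ℤ) : ℝ) := by
          rw [hX, div_le_div_iff₀ (by positivity) hm1, sq]
          have := mul_le_mul_of_nonneg_left hbm' (mul_nonneg hl0 hm1.le)
          nlinarith
        refine h4.trans ?_
        rw [div_le_div_iff₀ hm1 hr0]
        have h5 : (b - a + 1) * r ≤ (min (b1 - a + 1) r) * (m + 1) := by
          rcases le_total (b1 - a + 1) r with h6 | h6
          · rw [min_eq_left h6]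
            nlinarith
          · rw [min_eq_right h6]
            nlinarith
        exact_mod_cast h5
      calc _ ≤ cE * (((min (b1 - a + 1) r : ℤ) : ℝ) / r) ^ ((1 : ℝ) / 3) := by
            apply mul_le_mul ((min_le_right _ _).trans (min_le_left _ _)) _ hX30 hcE.le
            exact Real.rpow_le_rpow hX0 h3 (by norm_num)
        _ ≤ _ := h1.trans h2
    · push Not at hc
      set R : ℤ := 8 * r with hRdef
      have hR1 : 1 ≤ R := by omega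
      have hRS : RE 0 (3 * R) 0 (3 * R) ⊆ S :=
        (RE_mono4 le_rfl (by omega) le_rfl (by omega)).trans hS
      have p1 := kF a b1 (3 * R) ha hab1 (by omega) S hRS
      have p2 := pr_QC hR1 hRS
      have p3 := kT 0 R 0 h (by omega) (by omega) (by
        have : r ≤ R := by omega
        have h0 : (0 : ℤ) ≤ ((48 * (K + 1) : ℕ) : ℤ) := Int.natCast_nonneg _
        nlinarith [mul_le_mul_of_nonneg_left this h0]) S
        ((RE_mono4 le_rfl (by omega) le_rfl le_rfl).trans hS)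
      have i1 := Pr_harris okhalf2 (QI_incr S a b1 (3 * R)) (QC_incr S R)
      have n1 : IncrE S (fun F => QI a b1 (3 * R) F ∧ QC R F) := fun F G k1 k2 hF =>
        ⟨QI_incr S a b1 (3 * R) F G k1 k2 hF.1, QC_incr S R F G k1 k2 hF.2⟩
      have i2 := Pr_harris okhalf2 n1 (TBc_incr S 0 R 0 h)
      have i3 : Pr (fun _ => (1/2 : ℝ)) S (fun F => (QI a b1 (3 * R) F ∧ QC R F) ∧
          TBc 0 R 0 h F) ≤ P2 S (VI a b 0 m h) := by
        apply Pr_mono okhalf2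
        rintro F _ ⟨⟨g1, g2⟩, g3⟩
        exact corner_det hR1 ha (by omega) hb1b (by omega) (by omega) g1 g2 g3
      have hl10 : (0 : ℝ) ≤ ((b1 - a + 1 : ℤ) : ℝ) := by
        exact_mod_cast (by omega : (0 : ℤ) ≤ b1 - a + 1)
      have hb10 : (0 : ℝ) ≤ ((b1 + 1 : ℤ) : ℝ) := by
        exact_mod_cast (by omega : (0 : ℤ) ≤ b1 + 1)
      have hR0 : (0 : ℝ) < ((3 * R : ℤ) : ℝ) := by exact_mod_cast (by omega : (0 : ℤ) < 3 * R)
      set Y : ℝ := ((((b1 - a + 1 : ℤ) : ℝ) * ((b1 + 1 : ℤ) : ℝ)) / ((3 * R : ℤ) : ℝ) ^ 2) with hY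
      have hXY : (1/4 : ℝ) * X ≤ Y := by
        have e1 : ((b - a + 1 : ℤ) : ℝ) ≤ 2 * ((b1 - a + 1 : ℤ) : ℝ) := by exact_mod_cast hl1
        have e2 : ((b + 1 : ℤ) : ℝ) ≤ 2 * ((b1 + 1 : ℤ) : ℝ) := by exact_mod_cast hb11
        have e3 : ((b - a + 1 : ℤ) : ℝ) * ((b + 1 : ℤ) : ℝ) ≤
            (2 * ((b1 - a + 1 : ℤ) : ℝ)) * (2 * ((b1 + 1 : ℤ) : ℝ)) :=
          mul_le_mul e1 e2 hb0 (by positivity)
        have e4 : ((3 * R : ℤ) : ℝ) ^ 2 ≤ ((m + 1 : ℤ) : ℝ) ^ 2 := by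
          apply pow_le_pow_left₀ hR0.le
          exact_mod_cast (by omega : 3 * R ≤ m + 1)
        calc (1/4 : ℝ) * X = (((b - a + 1 : ℤ) : ℝ) * ((b + 1 : ℤ) : ℝ)) / 4 /
              ((m + 1 : ℤ) : ℝ) ^ 2 := by rw [hX]; ring
          _ ≤ (((b1 - a + 1 : ℤ) : ℝ) * ((b1 + 1 : ℤ) : ℝ)) / ((m + 1 : ℤ) : ℝ) ^ 2 := by
              apply div_le_div_of_nonneg_right _ (by positivity)
              linarith
          _ ≤ Y := by
              rw [hY]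
              apply div_le_div_of_nonneg_left (mul_nonneg hl10 hb10) (by positivity) e4
      have hY0 : 0 ≤ Y := by positivity
      have j0 : (1/4 : ℝ) * X ^ ((1 : ℝ) / 3) ≤ Y ^ ((1 : ℝ) / 3) :=
        (fourth_le hX0).trans (Real.rpow_le_rpow (by positivity) hXY (by norm_num))
      have j1 : cF * ((1/4 : ℝ) * X ^ ((1 : ℝ) / 3)) ≤ P2 S (QI a b1 (3 * R)) :=
        (mul_le_mul_of_nonneg_left j0 hcF.le).trans p1
      have p94 : (0 : ℝ) ≤ (1/2 : ℝ) ^ 94 := by positivity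
      have j2 : cF * ((1/4 : ℝ) * X ^ ((1 : ℝ) / 3)) * (1/2) ^ 94 ≤
          Pr (fun _ => (1/2 : ℝ)) S (fun F => QI a b1 (3 * R) F ∧ QC R F) :=
        (mul_le_mul j1 p2 p94 (Pr_nonneg okhalf2 _ _)).trans i1
      have j3 : cF * ((1/4 : ℝ) * X ^ ((1 : ℝ) / 3)) * (1/2) ^ 94 * cT ≤
          Pr (fun _ => (1/2 : ℝ)) S (fun F => (QI a b1 (3 * R) F ∧ QC R F) ∧
          TBc 0 R 0 h F) :=
        (mul_le_mul j2 p3 hcT.le (Pr_nonneg okhalf2 _ _)).trans i2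
      calc _ ≤ cF * (1/2) ^ 94 * cT * (1/4) * X ^ ((1 : ℝ) / 3) :=
            mul_le_mul_of_nonneg_right ((min_le_right _ _).trans (min_le_right _ _)) hX30
        _ = cF * ((1/4 : ℝ) * X ^ ((1 : ℝ) / 3)) * (1/2) ^ 94 * cT := by ring
        _ ≤ _ := j3.trans i3

end H731R
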