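import Pool.Agent.H731R3.Rect.QUp
import Pool.Agent.H731R3.Rect.Defs

/-! Task H: upper bound along the whole side (helper134). -/

namespace H731R

open H974 H731C Finset

namespace TH

theorem VI_QI {a b m h n : ℤ} (ha : 0 ≤ a) (hb : 2 * b ≤ n) (hab : a ≤ b) (hn : 1 ≤ n)
    (hnm : n ≤ m) (hnh : n ≤ h) {F : Finset Edg} (H : VI a b 0 m h F) : QI a b n F := by
  obtain ⟨x, y, hx, hy, hr⟩ := H
  obtain ⟨w, hw1, hw2, hw3⟩ := first_exit (a := -1) (b := n) (c := -1) (d := n)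
    (u := (x, 0)) (v := (y, h)) (by unfold inR; simp only; omega) hr (by simp only; omega)
  have hw4 : inR 0 m 0 h w := by
    refine reach_inR (G := (↑F : Set Edg) ∩ ↑(RE (-1) n (-1) n)) (u := (x, 0))
      (by unfold inR; simp only; omega) (hw3.mono ?_)
    rintro e ⟨⟨h1, h2⟩, h3⟩
    exact ⟨⟨h1, h3⟩, h2⟩
  refine ⟨x, w, hx, ?_, hw3.mono ?_⟩
  · unfold onQ
    unfold inR at hw4 hw1
    omega
  · rintro ⟨x, y, _ | _⟩ ⟨⟨h1, h2⟩, h3⟩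
    · refine ⟨h1, ?_⟩
      rw [mem_coe, mem_RE_false] at h2 h3 ⊢
      omega
    · refine ⟨h1, ?_⟩
      rw [mem_coe, mem_RE_true] at h2 h3 ⊢
      omega

theorem VI_HA {a b m h r : ℤ} (hab : a ≤ b) (hr : 1 ≤ r) (hbr : 0 ≤ b - r)
    (hbm : b + r ≤ m) (hrh : r ≤ h) (hlr : b - a + 1 ≤ r) {F : Finset Edg}
    (H : VI a b 0 m h F) : HA b 0 (b - a + 1) r F := by
  obtain ⟨x, y, hx, hy, hre⟩ := H
  obtain ⟨w, hw1, hw2, hw3⟩ := first_exit (a := b - r) (b := b + r) (c := -1) (d := r)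
    (u := (x, 0)) (v := (y, h)) (by unfold inR; simp only; omega) hre (by simp only; omega)
  have hw4 : inR 0 m 0 h w := by
    refine reach_inR (G := (↑F : Set Edg) ∩ ↑(RE (b - r) (b + r) (-1) r)) (u := (x, 0))
      (by unfold inR; simp only; omega) (hw3.mono ?_)
    rintro e ⟨⟨h1, h2⟩, h3⟩
    exact ⟨⟨h1, h3⟩, h2⟩
  refine ⟨(x, 0), w, ?_, ?_, hw3.mono ?_⟩
  · unfold inR; simp only; omega
  · unfold onH
    unfold inR at hw4 hw1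
    omega
  · rintro ⟨x, y, _ | _⟩ ⟨⟨h1, h2⟩, h3⟩
    · refine ⟨h1, ?_⟩
      rw [mem_coe, mem_RE_false] at h2 h3 ⊢
      omega
    · refine ⟨h1, ?_⟩
      rw [mem_coe, mem_RE_true] at h2 h3 ⊢
      omega

end TH

open TH in
theorem VI_upper (K : ℕ) : ∃ C : ℝ, 0 < C ∧ ∀ a b m h : ℤ, 0 ≤ a → a ≤ b → b ≤ m →
    a ≤ m - b → 1 ≤ m → 1 ≤ h → m ≤ K * h → ∀ S : Finset Edg, RE 0 m 0 h ⊆ S →
    P2 S (VI a b 0 m h) ≤
      C * ((((b - a + 1 : ℤ) : ℝ) * ((b + 1 : ℤ) : ℝ)) / ((m + 1 : ℤ) : ℝ) ^ 2)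
        ^ ((1 : ℝ) / 3) := by
  obtain ⟨CG, hCG, hG⟩ := QI_upper
  obtain ⟨CA, hCA, hA⟩ := HA_upper
  set B : ℝ := 128 * (K : ℝ) ^ 2 + 1 with hB
  have hB1 : 1 ≤ B := by
    have : 0 ≤ 128 * (K : ℝ) ^ 2 := by positivity
    linarith
  have hB3 : 128 * (K : ℝ) ^ 2 ≤ B ^ 3 := by
    have h1 : 128 * (K : ℝ) ^ 2 ≤ B := by linarith
    have h2 : B ≤ B ^ 3 := by
      have : B ^ 1 ≤ B ^ 3 := pow_le_pow_right₀ hB1 (by norm_num)
      simpa using this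
    linarith
  refine ⟨(CG + CA + 1) * B, by positivity, ?_⟩
  intro a b m h ha hab hbm ham hm hh hK S hS
  have hK1 : (1 : ℤ) ≤ K := by
    by_contra hc
    have : (K : ℤ) = 0 := by omega
    rw [this] at hK
    omega
  obtain ⟨n, hn⟩ : ∃ n, n = min m h := ⟨_, rfl⟩
  have hnm : n ≤ m := hn ▸ min_le_left _ _
  have hnh : n ≤ h := hn ▸ min_le_right _ _
  have hn1 : 1 ≤ n := by rw [hn]; exact le_min hm hh
  have hmK : m ≤ K * n := by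
    rcases min_choice m h with hc | hc
    · rw [hn, hc]
      nlinarith
    · rw [hn, hc]
      exact hK
  have hm2 : m + 1 ≤ 2 * (K * n) := by linarith
  have hm2R : ((m + 1 : ℤ) : ℝ) ≤ 2 * (K * n) := by exact_mod_cast hm2
  have hnR : (1 : ℝ) ≤ n := by exact_mod_cast hn1
  have hKR : (1 : ℝ) ≤ K := by exact_mod_cast hK1
  have hm0 : (0 : ℝ) < ((m + 1 : ℤ) : ℝ) := by exact_mod_cast (by omega : (0 : ℤ) < m + 1)
  have hmsq : ((m + 1 : ℤ) : ℝ) ^ 2 ≤ 4 * (K : ℝ) ^ 2 * (n : ℝ) ^ 2 := by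
    have : ((m + 1 : ℤ) : ℝ) ^ 2 ≤ (2 * (K * n)) ^ 2 := pow_le_pow_left₀ hm0.le hm2R 2
    nlinarith
  obtain ⟨l, hl⟩ : ∃ l, l = b - a + 1 := ⟨_, rfl⟩
  have hl1 : 1 ≤ l := by omega
  have hlR : (1 : ℝ) ≤ l := by exact_mod_cast hl1
  have hb1R : (1 : ℝ) ≤ ((b + 1 : ℤ) : ℝ) := by exact_mod_cast (by omega : (1 : ℤ) ≤ b + 1)
  have hP0 : 0 ≤ P2 S (VI a b 0 m h) := Pr_nonneg okhalf2 _ _
  have hP1 : P2 S (VI a b 0 m h) ≤ 1 := Pr_le_one okhalf2 _ _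
  rw [← hl]
  set R : ℝ := ((l : ℝ) * ((b + 1 : ℤ) : ℝ)) / ((m + 1 : ℤ) : ℝ) ^ 2 with hR
  have hR0 : 0 ≤ R := by positivity
  have hRt : 0 ≤ R ^ ((1 : ℝ) / 3) := by positivity
  have hfin : ∀ C' : ℝ, 0 ≤ C' → C' ≤ CG + CA + 1 → ∀ x : ℝ, 0 ≤ x →
      x ≤ 128 * (K : ℝ) ^ 2 * R → C' * x ^ ((1 : ℝ) / 3) ≤
        (CG + CA + 1) * B * R ^ ((1 : ℝ) / 3) := by
    intro C' hC' hle x hx hxR
    have h1 := cube_root_le hx hR0 (by linarith : (0 : ℝ) ≤ B) hxR hB3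
    calc C' * x ^ ((1 : ℝ) / 3) ≤ C' * (B * R ^ ((1 : ℝ) / 3)) :=
          mul_le_mul_of_nonneg_left h1 hC'
      _ ≤ (CG + CA + 1) * (B * R ^ ((1 : ℝ) / 3)) :=
          mul_le_mul_of_nonneg_right hle (by positivity)
      _ = _ := by ring
  by_cases hb2 : 2 * b ≤ n
  · -- the corner case
    have h1 : P2 S (VI a b 0 m h) ≤ P2 S (QI a b n) :=
      Pr_mono okhalf2 (fun F _ hF => VI_QI ha hb2 hab hn1 hnm hnh hF)
    have h2 := hG a b n ha hab hb2 hn1 S ((RE_mono4 le_rfl hnm le_rfl hnh).trans hS)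
    rw [← hl] at h2
    refine (h1.trans h2).trans (hfin CG hCG.le (by linarith) _ (by positivity) ?_)
    rw [hR, ← mul_div_assoc, div_le_div_iff₀ (by positivity) (by positivity)]
    have h3 : 0 ≤ (l : ℝ) * ((b + 1 : ℤ) : ℝ) := by positivity
    have h4 : ((m + 1 : ℤ) : ℝ) ^ 2 ≤ 128 * (K : ℝ) ^ 2 * (n : ℝ) ^ 2 := by
      refine hmsq.trans ?_
      have : 0 ≤ (K : ℝ) ^ 2 * (n : ℝ) ^ 2 := by positivity
      nlinarith
    calc (l : ℝ) * ((b + 1 : ℤ) : ℝ) * ((m + 1 : ℤ) : ℝ) ^ 2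
        ≤ (l : ℝ) * ((b + 1 : ℤ) : ℝ) * (128 * (K : ℝ) ^ 2 * (n : ℝ) ^ 2) :=
          mul_le_mul_of_nonneg_left h4 h3
      _ = _ := by ring
  · push Not at hb2
    have hbR : (n : ℝ) ≤ 2 * ((b + 1 : ℤ) : ℝ) := by
      exact_mod_cast (by omega : n ≤ 2 * (b + 1))
    by_cases hbig : n ≤ 16 * l
    · -- trivial case
      have hlbR : (n : ℝ) ≤ 16 * l := by exact_mod_cast hbig
      have h3 : (1 : ℝ) ≤ 128 * (K : ℝ) ^ 2 * R := by
        rw [hR, ← mul_div_assoc, le_div_iff₀ (by positivity), one_mul]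
        have h5 : (n : ℝ) * n ≤ (16 * l) * (2 * ((b + 1 : ℤ) : ℝ)) :=
          mul_le_mul hlbR hbR (by linarith) (by positivity)
        calc ((m + 1 : ℤ) : ℝ) ^ 2 ≤ 4 * (K : ℝ) ^ 2 * (n : ℝ) ^ 2 := hmsq
          _ = 4 * (K : ℝ) ^ 2 * ((n : ℝ) * n) := by ring
          _ ≤ 4 * (K : ℝ) ^ 2 * ((16 * l) * (2 * ((b + 1 : ℤ) : ℝ))) :=
              mul_le_mul_of_nonneg_left h5 (by positivity)
          _ = _ := by ring
      have h4 := hfin 1 (by norm_num) (by linarith) 1 (by norm_num) h3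
      rw [Real.one_rpow, mul_one] at h4
      exact hP1.trans h4
    · push Not at hbig
      obtain ⟨r, hrd⟩ : ∃ r, r = n / 8 := ⟨_, rfl⟩
      have hr1 : 1 ≤ r := by omega
      have hlr : l ≤ r := by omega
      have h1 : P2 S (VI a b 0 m h) ≤ P2 S (HA b 0 (b - a + 1) r) :=
        Pr_mono okhalf2 (fun F _ hF => VI_HA hab hr1 (by omega) (by omega) (by omega)
          (by omega) hF)
      rw [← hl] at h1
      have h2 := hA b 0 l r hl1 hlr S ((RE_mono4 (by omega) (by omega) le_rfl (by omega)).trans hS)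
      refine (h1.trans h2).trans (hfin CA hCA.le (by linarith) _ (by positivity) ?_)
      have hrR : (1 : ℝ) ≤ r := by exact_mod_cast hr1
      have hr16 : (n : ℝ) ≤ 16 * r := by exact_mod_cast (by omega : n ≤ 16 * r)
      rw [hR, ← mul_div_assoc, div_le_div_iff₀ (by positivity) (by positivity)]
      have h5 : (n : ℝ) * n ≤ (16 * r) * (2 * ((b + 1 : ℤ) : ℝ)) :=
        mul_le_mul hr16 hbR (by linarith) (by positivity)
      have h6 : ((m + 1 : ℤ) : ℝ) ^ 2 ≤ 128 * (K : ℝ) ^ 2 * ((b + 1 : ℤ) : ℝ) * r := by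
        calc ((m + 1 : ℤ) : ℝ) ^ 2 ≤ 4 * (K : ℝ) ^ 2 * (n : ℝ) ^ 2 := hmsq
          _ = 4 * (K : ℝ) ^ 2 * ((n : ℝ) * n) := by ring
          _ ≤ 4 * (K : ℝ) ^ 2 * ((16 * r) * (2 * ((b + 1 : ℤ) : ℝ))) :=
              mul_le_mul_of_nonneg_left h5 (by positivity)
          _ = _ := by ring
      calc (l : ℝ) * ((m + 1 : ℤ) : ℝ) ^ 2
          ≤ (l : ℝ) * (128 * (K : ℝ) ^ 2 * ((b + 1 : ℤ) : ℝ) * r) :=
            mul_le_mul_of_nonneg_left h6 (by linarith)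
        _ = _ := by ring

end H731R
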