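import Pool.Agent.H731R3.Rect.Long

/-!
Task L: product bounds.
-/

namespace H731R

open H974 H731C Finset

namespace LProd

theorem coe_inter_inter {F R : Finset Edg} :
    (↑(F ∩ R) : Set Edg) ∩ ↑R = ↑F ∩ ↑R := by
  ext e
  simp only [Finset.coe_inter, Set.mem_inter_iff, Finset.mem_coe]
  tauto

theorem VI_loc (a b A B h : ℤ) (F : Finset Edg) :
    VI a b A B h F ↔ VI a b A B h (F ∩ RE A B 0 h) := by
  unfold VI
  rw [coe_inter_inter]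

theorem VT_loc (a b m n h : ℤ) (F : Finset Edg) :
    VT a b m n h F ↔ VT a b m n h (F ∩ RE 0 m (n - h) n) := by
  unfold VT
  rw [coe_inter_inter]

theorem upper_det {a b a' b' m n h : ℤ} (h1 : 1 ≤ h) (h2 : 2 * h < n) (hm : 1 ≤ m)
    (ha : 0 ≤ a) (hb : b ≤ m) (ha' : 0 ≤ a') (hb' : b' ≤ m) {F : Finset Edg}
    (hF : BT a b a' b' m n F) :
    VI a b 0 m h (F ∩ RE 0 m 0 h) ∧ VT a' b' m n h (F ∩ RE 0 m (n - h) n) := by
  obtain ⟨x, y, hx, hy, hr⟩ := hF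
  constructor
  · rw [← VI_loc]
    obtain ⟨w, hw1, hw2, hw3⟩ := first_exit (a := -1) (b := m + 1) (c := -1) (d := h)
      (u := (x, 0)) (v := (y, n)) ⟨⟨by show -1 ≤ x; omega, by show x ≤ m + 1; omega⟩,
        by show (-1 : ℤ) ≤ 0; omega, by show (0 : ℤ) ≤ h; omega⟩ hr
      (by right; right; right; show h ≤ n; omega)
    have hw4 : inR 0 m 0 n w := by
      refine reach_inR (G := (↑F : Set Edg) ∩ ↑(RE (-1) (m + 1) (-1) h))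
        (u := (x, 0)) ⟨⟨by show 0 ≤ x; omega, by show x ≤ m; omega⟩, le_refl _,
          by show (0 : ℤ) ≤ n; omega⟩ (hw3.mono ?_)
      rintro e ⟨⟨k1, k2⟩, k3⟩
      exact ⟨⟨k1, k3⟩, k2⟩
    unfold inR at hw4 hw1
    have hw5 : w.2 = h := by omega
    refine ⟨x, w.1, hx, hw4.1, ?_⟩
    rw [← hw5]
    refine hw3.mono ?_
    rintro ⟨x, y, _ | _⟩ ⟨⟨k1, k2⟩, k3⟩
    · refine ⟨k1, ?_⟩
      rw [mem_coe, mem_RE_false] at k2 k3 ⊢
      omega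
    · refine ⟨k1, ?_⟩
      rw [mem_coe, mem_RE_true] at k2 k3 ⊢
      omega
  · rw [← VT_loc]
    obtain ⟨w, hw1, hw2, hw3⟩ := first_exit (a := -1) (b := m + 1) (c := n - h) (d := n + 1)
      (u := (y, n)) (v := (x, 0)) ⟨⟨by show -1 ≤ y; omega, by show y ≤ m + 1; omega⟩,
        by show n - h ≤ n; omega, by show n ≤ n + 1; omega⟩ hr.symm
      (by right; right; left; show 0 ≤ n - h; omega)
    have hw4 : inR 0 m 0 n w := by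
      refine reach_inR (G := (↑F : Set Edg) ∩ ↑(RE (-1) (m + 1) (n - h) (n + 1)))
        (u := (y, n)) ⟨⟨by show 0 ≤ y; omega, by show y ≤ m; omega⟩,
          by show (0 : ℤ) ≤ n; omega, le_refl _⟩ (hw3.mono ?_)
      rintro e ⟨⟨k1, k2⟩, k3⟩
      exact ⟨⟨k1, k3⟩, k2⟩
    unfold inR at hw4 hw1
    have hw5 : w.2 = n - h := by omega
    refine ⟨y, w.1, hy, hw4.1, ?_⟩
    rw [← hw5]
    refine hw3.mono ?_
    rintro ⟨x, y, _ | _⟩ ⟨⟨k1, k2⟩, k3⟩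
    · refine ⟨k1, ?_⟩
      rw [mem_coe, mem_RE_false] at k2 k3 ⊢
      omega
    · refine ⟨k1, ?_⟩
      rw [mem_coe, mem_RE_true] at k2 k3 ⊢
      omega

theorem lower_det {a b a' b' m n h : ℤ} (h1 : 1 ≤ h) (h2 : 2 * h < n) (hm : 1 ≤ m)
    {F : Finset Edg} (g1 : VI a b 0 m h F) (g2 : LRc 0 m 0 h F) (g3 : TBc 0 m 0 n F)
    (g4 : LRc 0 m (n - h) n F) (g5 : VT a' b' m n h F) : BT a b a' b' m n F := by
  obtain ⟨x, y, hx, hy, r1⟩ := g1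
  obtain ⟨s, s', hs, hs', r2⟩ := g2
  obtain ⟨t, t', ht, ht', r3⟩ := g3
  obtain ⟨q, q', hq, hq', r4⟩ := g4
  obtain ⟨x', y', hx', hy', r5⟩ := g5
  have r2' := r2.mono (Set.inter_subset_inter_right (↑F : Set Edg)
    (show (↑(LRE 0 m 0 h) : Set Edg) ⊆ ↑(RE 0 m 0 h) by exact_mod_cast LRE_subset_RE))
  have r4' := r4.mono (Set.inter_subset_inter_right (↑F : Set Edg)
    (show (↑(LRE 0 m (n - h) n) : Set Edg) ⊆ ↑(RE 0 m (n - h) n) by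
      exact_mod_cast LRE_subset_RE))
  have r3' := r3.mono (Set.inter_subset_inter_right (↑F : Set Edg)
    (show (↑(TBE 0 m 0 n) : Set Edg) ⊆ ↑(RE 0 m 0 n) by exact_mod_cast TBE_subset_RE))
  have m1 : Reach (↑F ∩ ↑(RE 0 m 0 h)) (0, s) (x, 0) :=
    cross_meet le_rfl (by omega) le_rfl le_rfl (by omega) le_rfl r2' le_rfl le_rfl
      r1 le_rfl le_rfl
  have m2 : Reach (↑F ∩ ↑(RE 0 m 0 n)) (0, s) (t, 0) :=
    cross_meet le_rfl (by omega) le_rfl le_rfl (by omega) (by omega) r2' le_rfl le_rfl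
      r3' le_rfl (by show h ≤ n; omega)
  have m3 : Reach (↑F ∩ ↑(RE 0 m 0 n)) (0, q) (t, 0) :=
    cross_meet le_rfl (by omega) le_rfl (by omega) (by omega) le_rfl r4' le_rfl le_rfl
      r3' (by show (0 : ℤ) ≤ n - h; omega) le_rfl
  have m4 : Reach (↑F ∩ ↑(RE 0 m (n - h) n)) (0, q) (y', n - h) :=
    cross_meet le_rfl (by omega) le_rfl le_rfl (by omega) le_rfl r4' le_rfl le_rfl
      r5.symm le_rfl le_rfl
  have s1 : (↑F : Set Edg) ∩ ↑(RE 0 m 0 h) ⊆ ↑F ∩ ↑(RE 0 m 0 n) :=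
    Set.inter_subset_inter_right _ (by
      exact_mod_cast RE_mono4 le_rfl le_rfl le_rfl (by omega))
  have s2 : (↑F : Set Edg) ∩ ↑(RE 0 m (n - h) n) ⊆ ↑F ∩ ↑(RE 0 m 0 n) :=
    Set.inter_subset_inter_right _ (by
      exact_mod_cast RE_mono4 le_rfl le_rfl (by omega) le_rfl)
  exact ⟨x, x', hx, hx', (m1.symm.mono s1).trans (m2.trans (m3.symm.trans ((m4.mono s2).trans
    (r5.symm.mono s2))))⟩

end LProd

open LProd

theorem BT_upper_mul {a b a' b' m n h : ℤ} (h1 : 1 ≤ h) (h2 : 2 * h < n) (hm : 1 ≤ m)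
    (ha : 0 ≤ a) (hb : b ≤ m) (ha' : 0 ≤ a') (hb' : b' ≤ m) :
    P2 (RE 0 m 0 n) (BT a b a' b' m n) ≤
      P2 (RE 0 m 0 h) (VI a b 0 m h) * P2 (RE 0 m (n - h) n) (VT a' b' m n h) := by
  have hS : RE 0 m 0 h ⊆ RE 0 m 0 n := RE_mono4 le_rfl le_rfl le_rfl (by omega)
  have hT : RE 0 m (n - h) n ⊆ RE 0 m 0 n := RE_mono4 le_rfl le_rfl (by omega) le_rfl
  have hd : Disjoint (RE 0 m 0 h) (RE 0 m (n - h) n) := by
    rw [Finset.disjoint_left]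
    rintro ⟨x, y, _ | _⟩ k1 k2
    · rw [mem_RE_false] at k1 k2
      omega
    · rw [mem_RE_true] at k1 k2
      omega
  rw [← P2_indep hS hT hd (VI a b 0 m h) (VT a' b' m n h)]
  apply Pr_mono okhalf2
  intro F _ hF
  exact upper_det h1 h2 hm ha hb ha' hb' hF

theorem BT_lower_mul (K : ℕ) : ∃ c : ℝ, 0 < c ∧ ∀ a b a' b' m n h : ℤ, 1 ≤ h → 2 * h < n →
    1 ≤ m → m ≤ K * h → n ≤ K * m → 0 ≤ a → b ≤ m → 0 ≤ a' → b' ≤ m →
    c * (P2 (RE 0 m 0 h) (VI a b 0 m h) * P2 (RE 0 m (n - h) n) (VT a' b' m n h)) ≤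
      P2 (RE 0 m 0 n) (BT a b a' b' m n) := by
  obtain ⟨c1, hc1, k1⟩ := LR_long K
  obtain ⟨c2, hc2, k2⟩ := TB_long K
  refine ⟨c1 * c2 * c1, by positivity, ?_⟩
  intro a b a' b' m n h h1 h2 hm hmK hnK ha hb ha' hb'
  set S := RE 0 m 0 n with hSdef
  have hS : RE 0 m 0 h ⊆ S := RE_mono4 le_rfl le_rfl le_rfl (by omega)
  have hT : RE 0 m (n - h) n ⊆ S := RE_mono4 le_rfl le_rfl (by omega) le_rfl
  have e1 : P2 S (VI a b 0 m h) = P2 (RE 0 m 0 h) (VI a b 0 m h) :=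
    P2_local hS (VI_loc a b 0 m h)
  have e2 : P2 S (VT a' b' m n h) = P2 (RE 0 m (n - h) n) (VT a' b' m n h) :=
    P2_local hT (VT_loc a' b' m n h)
  rw [← e1, ← e2]
  have p1 : c1 ≤ P2 S (LRc 0 m 0 h) := k1 0 m 0 h (by omega) (by omega) (by
    simpa using hmK) S hS
  have p2 : c2 ≤ P2 S (TBc 0 m 0 n) := k2 0 m 0 n (by omega) (by omega) (by
    simpa using hnK) S (Finset.Subset.refl _)
  have p3 : c1 ≤ P2 S (LRc 0 m (n - h) n) := k1 0 m (n - h) n (by omega) (by omega) (by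
    simpa using hmK) S hT
  have q1 : 0 ≤ P2 S (VI a b 0 m h) := Pr_nonneg okhalf2 _ _
  have q5 : 0 ≤ P2 S (VT a' b' m n h) := Pr_nonneg okhalf2 _ _
  have i1 := Pr_harris okhalf2 (VI_incr S a b 0 m h) (LRc_incr S 0 m 0 h)
  have n1 : IncrE S (fun F => VI a b 0 m h F ∧ LRc 0 m 0 h F) := fun F G k1 k2 hF =>
    ⟨VI_incr S a b 0 m h F G k1 k2 hF.1, LRc_incr S 0 m 0 h F G k1 k2 hF.2⟩
  have i2 := Pr_harris okhalf2 n1 (TBc_incr S 0 m 0 n)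
  have n2 : IncrE S (fun F => (VI a b 0 m h F ∧ LRc 0 m 0 h F) ∧ TBc 0 m 0 n F) :=
    fun F G k1 k2 hF => ⟨n1 F G k1 k2 hF.1, TBc_incr S 0 m 0 n F G k1 k2 hF.2⟩
  have i3 := Pr_harris okhalf2 n2 (LRc_incr S 0 m (n - h) n)
  have n3 : IncrE S (fun F => ((VI a b 0 m h F ∧ LRc 0 m 0 h F) ∧ TBc 0 m 0 n F) ∧
      LRc 0 m (n - h) n F) :=
    fun F G k1 k2 hF => ⟨n2 F G k1 k2 hF.1, LRc_incr S 0 m (n - h) n F G k1 k2 hF.2⟩
  have i4 := Pr_harris okhalf2 n3 (VT_incr S a' b' m n h)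
  have i5 : Pr (fun _ => (1/2 : ℝ)) S (fun F => (((VI a b 0 m h F ∧ LRc 0 m 0 h F) ∧
      TBc 0 m 0 n F) ∧ LRc 0 m (n - h) n F) ∧ VT a' b' m n h F) ≤
      P2 S (BT a b a' b' m n) := by
    apply Pr_mono okhalf2
    rintro F _ ⟨⟨⟨⟨g1, g2⟩, g3⟩, g4⟩, g5⟩
    exact lower_det h1 h2 hm g1 g2 g3 g4 g5
  refine le_trans ?_ (i4.trans i5)
  have j1 : P2 S (VI a b 0 m h) * c1 ≤
      Pr (fun _ => (1/2 : ℝ)) S (fun F => VI a b 0 m h F ∧ LRc 0 m 0 h F) :=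
    (mul_le_mul_of_nonneg_left p1 q1).trans i1
  have j2 : P2 S (VI a b 0 m h) * c1 * c2 ≤
      Pr (fun _ => (1/2 : ℝ)) S (fun F => (VI a b 0 m h F ∧ LRc 0 m 0 h F) ∧ TBc 0 m 0 n F) :=
    (mul_le_mul j1 p2 hc2.le (Pr_nonneg okhalf2 _ _)).trans i2
  have j3 : P2 S (VI a b 0 m h) * c1 * c2 * c1 ≤
      Pr (fun _ => (1/2 : ℝ)) S (fun F => ((VI a b 0 m h F ∧ LRc 0 m 0 h F) ∧ TBc 0 m 0 n F) ∧
        LRc 0 m (n - h) n F) :=
    (mul_le_mul j2 p3 hc1.le (Pr_nonneg okhalf2 _ _)).trans i3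
  calc c1 * c2 * c1 * (P2 S (VI a b 0 m h) * P2 S (VT a' b' m n h))
      = P2 S (VI a b 0 m h) * c1 * c2 * c1 * P2 S (VT a' b' m n h) := by ring
    _ ≤ _ := mul_le_mul_of_nonneg_right j3 q5

end H731R
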