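import Pool.Agent.H731R3.Rect.Defs

/-!
Reflections (task J), and the transposition.
-/

namespace H731R

open H974 H731C Finset

theorem sym_reach (g : LSym) {F R R' : Finset Edg} (hR : g.mp R = R') {u v : Vtx} :
    Reach (↑(g.mp F) ∩ ↑R') (g.ψ u) (g.ψ v) ↔ Reach (↑F ∩ ↑R) u v := by
  have e : ((↑(g.mp F) : Set Edg) ∩ ↑R') = g.φ '' (↑F ∩ ↑R) := by
    rw [← hR, ← Finset.coe_inter, ← LSym.mp_inter, LSym.coe_mp, Finset.coe_inter]
  rw [e]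
  exact g.reach_iff

theorem VI_refl (a b m h : ℤ) :
    P2 (RE 0 m 0 h) (VI a b 0 m h) = P2 (RE 0 m 0 h) (VI (m - b) (m - a) 0 m h) := by
  have hR : (rfx m).mp (RE 0 m 0 h) = RE 0 m 0 h := by
    rw [rfx_RE]; congr 1 <;> ring
  have h1 := (rfx m).pr (1/2) (RE 0 m 0 h) (VI (m - b) (m - a) 0 m h)
  rw [hR] at h1
  unfold P2
  rw [h1]
  apply Pr_congr
  intro F _
  constructor
  · rintro ⟨x, y, hx, hy, hr⟩
    refine ⟨m - x, m - y, ⟨by omega, by omega⟩, ⟨by omega, by omega⟩, ?_⟩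
    exact (sym_reach (rfx m) hR (u := (x, 0)) (v := (y, h))).mpr hr
  · rintro ⟨x, y, hx, hy, hr⟩
    refine ⟨m - x, m - y, ⟨by omega, by omega⟩, ⟨by omega, by omega⟩, ?_⟩
    apply (sym_reach (rfx m) hR (u := (m - x, 0)) (v := (m - y, h))).mp
    rw [rfx_ψ, rfx_ψ, sub_sub_cancel, sub_sub_cancel]
    exact hr

theorem VT_eq (a b m n h : ℤ) :
    P2 (RE 0 m (n - h) n) (VT a b m n h) = P2 (RE 0 m 0 h) (VI a b 0 m h) := by
  have hR : (rfy n).mp (RE 0 m (n - h) n) = RE 0 m 0 h := by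
    rw [rfy_RE]; congr 1 <;> ring
  have h1 := (rfy n).pr (1/2) (RE 0 m (n - h) n) (VI a b 0 m h)
  rw [hR] at h1
  unfold P2
  rw [h1]
  apply Pr_congr
  intro F _
  constructor
  · rintro ⟨x, y, hx, hy, hr⟩
    refine ⟨x, y, hx, hy, ?_⟩
    have := (sym_reach (rfy n) hR (F := F) (u := (x, n)) (v := (y, n - h))).mpr hr
    rw [rfy_ψ, rfy_ψ, sub_self, sub_sub_cancel] at this
    exact this
  · rintro ⟨x, y, hx, hy, hr⟩
    refine ⟨x, y, hx, hy, ?_⟩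
    apply (sym_reach (rfy n) hR (u := (x, n)) (v := (y, n - h))).mp
    rw [rfy_ψ, rfy_ψ, sub_self, sub_sub_cancel]
    exact hr

/-- left-right version -/
theorem LR_eq (a b a' b' m n : ℤ) :
    P2 (RE 0 m 0 n) (fun F => ∃ y y', (a ≤ y ∧ y ≤ b) ∧ (a' ≤ y' ∧ y' ≤ b') ∧
      Reach (↑F ∩ ↑(RE 0 m 0 n)) (0, y) (m, y')) =
    P2 (RE 0 n 0 m) (BT a b a' b' n m) := by
  have hR : tps.mp (RE 0 m 0 n) = RE 0 n 0 m := tps_RE 0 m 0 n
  have h1 := tps.pr (1/2) (RE 0 m 0 n) (BT a b a' b' n m)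
  rw [hR] at h1
  unfold P2
  rw [h1]
  apply Pr_congr
  intro F _
  constructor
  · rintro ⟨x, y, hx, hy, hr⟩
    refine ⟨x, y, hx, hy, ?_⟩
    exact (sym_reach tps hR (F := F) (u := (0, x)) (v := (m, y))).mpr hr
  · rintro ⟨x, y, hx, hy, hr⟩
    refine ⟨x, y, hx, hy, ?_⟩
    exact (sym_reach tps hR (u := (0, x)) (v := (m, y))).mp hr

end H731R
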