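import Pool.Agent.H731R3.Rect.Defs

/-!
Small rectangles.
-/

namespace H731R

open H974 H731C Finset

/-- vertical path in the full rectangle -/
theorem M_vert {m n x : ℤ} (hx : 0 ≤ x) (hx' : x ≤ m) (k : ℕ) (hk : (k : ℤ) ≤ n) :
    Reach (↑(RE 0 m 0 n)) (x, 0) (x, (k : ℤ)) := by
  induction k with
  | zero => exact Reach.refl _ _
  | succ k ih =>
    have h1 := ih (by push_cast at hk; omega)
    refine h1.trans (Adj.reach ⟨(x, (k : ℤ), false), ?_, Or.inl ⟨rfl, ?_⟩⟩)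
    · rw [Finset.mem_coe, mem_RE_false]
      push_cast at hk
      omega
    · simp

/-- horizontal path in the full rectangle -/
theorem M_hor {m n x y : ℤ} (hy : 0 ≤ y) (hy' : y ≤ n) (hx : 0 ≤ x) (k : ℕ)
    (hk : x + (k : ℤ) ≤ m) :
    Reach (↑(RE 0 m 0 n)) (x, y) (x + (k : ℤ), y) := by
  induction k with
  | zero => simpa using Reach.refl _ _
  | succ k ih =>
    have h1 := ih (by push_cast at hk; omega)
    refine h1.trans (Adj.reach ⟨(x + (k : ℤ), y, true), ?_, Or.inl ⟨rfl, ?_⟩⟩)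
    · rw [Finset.mem_coe, mem_RE_true]
      push_cast at hk
      omega
    · simp [add_assoc]

theorem M_path {m n x y : ℤ} (hn : 0 ≤ n) (hx : 0 ≤ x) (hx' : x ≤ m) (hy : 0 ≤ y)
    (hy' : y ≤ m) : Reach (↑(RE 0 m 0 n)) (x, 0) (y, n) := by
  have h1 := M_vert (n := n) hx hx' n.toNat (by omega)
  rw [Int.toNat_of_nonneg hn] at h1
  refine h1.trans ?_
  rcases le_total x y with h | h
  · have h2 := M_hor (m := m) (n := n) (x := x) (y := n) hn le_rfl hx (y - x).toNat (by omega)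
    rw [Int.toNat_of_nonneg (by omega)] at h2
    have e : x + (y - x) = y := by ring
    rwa [e] at h2
  · have h2 := M_hor (m := m) (n := n) (x := y) (y := n) hn le_rfl hy (x - y).toNat (by omega)
    rw [Int.toNat_of_nonneg (by omega)] at h2
    have e : y + (x - y) = x := by ring
    rw [e] at h2
    exact h2.symm

theorem M_full (S : Finset Edg) {A : Finset Edg → Prop} (h : A S) :
    (1/2 : ℝ) ^ S.card ≤ P2 S A := by
  unfold P2 Pr Ex
  refine le_trans (le_of_eq ?_) (Finset.single_le_sum (f := fun F : Finset Edg =>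
    (∏ e ∈ F, (1/2 : ℝ)) * (∏ e ∈ S \ F, (1 - (1/2 : ℝ))) * ind (A F)) (fun F _ => ?_)
    (Finset.mem_powerset_self S))
  · simp [ind_of h]
  · have := ind_nonneg (A F)
    have h2 : (0 : ℝ) ≤ ∏ e ∈ F, (1/2 : ℝ) := Finset.prod_nonneg fun _ _ => by norm_num
    have h3 : (0 : ℝ) ≤ ∏ e ∈ S \ F, (1 - (1/2 : ℝ)) := Finset.prod_nonneg fun _ _ => by norm_num
    positivity

theorem BT_small (M : ℕ) : ∃ c : ℝ, 0 < c ∧ ∀ a b a' b' m n : ℤ, 0 ≤ n → n ≤ M → 0 ≤ m →
    m ≤ M → 0 ≤ a → a ≤ b → b ≤ m → 0 ≤ a' → a' ≤ b' → b' ≤ m →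
    c ≤ P2 (RE 0 m 0 n) (BT a b a' b' m n) := by
  refine ⟨(1/2 : ℝ) ^ (RE 0 M 0 M).card, by positivity, ?_⟩
  intro a b a' b' m n hn hnM hm hmM ha hab hb ha' hab' hb'
  have h1 : BT a b a' b' m n (RE 0 m 0 n) := by
    refine ⟨a, a', ⟨le_rfl, hab⟩, ⟨le_rfl, hab'⟩, ?_⟩
    rw [Set.inter_self]
    exact M_path hn ha (by omega) ha' (by omega)
  refine le_trans ?_ (M_full _ h1)
  apply pow_le_pow_of_le_one (by norm_num) (by norm_num)
  exact Finset.card_le_card (RE_mono4 le_rfl hmM le_rfl hnM)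

end H731R
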