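import Pool.Agent.H731R3.Rect.Cos
import Pool.Agent.H731R3.Rect.HLow
import Pool.Agent.H731R3.Rect.HUp
import Pool.Agent.H731R3.Rect.Long
import Pool.Agent.H731R3.Rect.Prod
import Pool.Agent.H731R3.Rect.Refl
import Pool.Agent.H731R3.Rect.Small
import Pool.Agent.H731R3.Rect.Defs

/-!
Crossings of a rectangle between intervals of opposite sides: final bounds.
-/

namespace H731R

open H974 H731C Finset

namespace Fin0

theorem third_pow {x : ℝ} (hx : 0 ≤ x) :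
    1 / 10 * x ^ ((1 : ℝ) / 3) ≤ (x / 10) ^ ((1 : ℝ) / 3) := by
  have h : x / 10 = 1 / 10 * x := by ring
  rw [h, Real.mul_rpow (by norm_num) hx]
  refine mul_le_mul_of_nonneg_right ?_ (Real.rpow_nonneg hx _)
  conv_lhs => rw [← Real.rpow_one ((1 : ℝ) / 10)]
  exact Real.rpow_le_rpow_of_exponent_ge (by norm_num) (by norm_num) (by norm_num)

/-- size of the interval, with the reflection removed -/
theorem Len_two (a b m : ℤ) (ha : 0 ≤ a) (hab : a ≤ b) (hb : b ≤ m) :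
    2 / ((m + 1 : ℤ) : ℝ) ^ 2 ≤ Len a b m ∧ Len a b m ≤ 2 := by
  constructor
  · have key : ∀ a b : ℤ, 0 ≤ a → a ≤ b → b ≤ m → a ≤ m - b →
        2 / ((m + 1 : ℤ) : ℝ) ^ 2 ≤ Len a b m := by
      intro a b ha hab hb h
      refine le_trans ?_ (Len_bounds ha hab hb h).1
      have h1 : (1 : ℝ) ≤ ((b - a + 1 : ℤ) : ℝ) := by
        exact_mod_cast (by omega : (1 : ℤ) ≤ b - a + 1)
      have h2 : (1 : ℝ) ≤ ((b + 1 : ℤ) : ℝ) := by exact_mod_cast (by omega : (1 : ℤ) ≤ b + 1)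
      have h3 : (0 : ℝ) < ((m + 1 : ℤ) : ℝ) := by exact_mod_cast (by omega : (0 : ℤ) < m + 1)
      apply div_le_div_of_nonneg_right _ (by positivity)
      nlinarith
    by_cases h : a ≤ m - b
    · exact key a b ha hab hb h
    · rw [← Len_refl a b m (by omega)]
      exact key (m - b) (m - a) (by omega) (by omega) (by omega) (by omega)
  · unfold Len
    have h1 := Real.cos_le_one (Real.pi * a / (m + 1))
    have h2 := Real.neg_one_le_cos (Real.pi * (b + 1) / (m + 1))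
    linarith

theorem side_bounds (K : ℕ) : ∃ c C : ℝ, 0 < c ∧ 0 < C ∧ ∀ a b m h : ℤ, 0 ≤ a → a ≤ b →
    b ≤ m → 1 ≤ m → 1 ≤ h → m ≤ K * h → h ≤ K * m →
    c * (Len a b m) ^ ((1 : ℝ) / 3) ≤ P2 (RE 0 m 0 h) (VI a b 0 m h) ∧
      P2 (RE 0 m 0 h) (VI a b 0 m h) ≤ C * (Len a b m) ^ ((1 : ℝ) / 3) := by
  obtain ⟨C, hC, HU⟩ := VI_upper K
  obtain ⟨c, hc, HL⟩ := VI_lower_side K
  refine ⟨c * (1 / 10), C, by positivity, hC, ?_⟩
  have key : ∀ a b m h : ℤ, 0 ≤ a → a ≤ b →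
      b ≤ m → 1 ≤ m → 1 ≤ h → m ≤ K * h → h ≤ K * m → a ≤ m - b →
      c * (1 / 10) * (Len a b m) ^ ((1 : ℝ) / 3) ≤ P2 (RE 0 m 0 h) (VI a b 0 m h) ∧
      P2 (RE 0 m 0 h) (VI a b 0 m h) ≤ C * (Len a b m) ^ ((1 : ℝ) / 3) := by
    intro a b m h ha hab hb hm hh h1 h2 h3
    obtain ⟨l1, l2⟩ := Len_bounds ha hab hb h3
    have e1 : (1 : ℝ) ≤ ((b - a + 1 : ℤ) : ℝ) := by
      exact_mod_cast (by omega : (1 : ℤ) ≤ b - a + 1)
    have e2 : (1 : ℝ) ≤ ((b + 1 : ℤ) : ℝ) := by exact_mod_cast (by omega : (1 : ℤ) ≤ b + 1)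
    have e3 : (0 : ℝ) < ((m + 1 : ℤ) : ℝ) := by exact_mod_cast (by omega : (0 : ℤ) < m + 1)
    have hq : 0 ≤ (((b - a + 1 : ℤ) : ℝ) * ((b + 1 : ℤ) : ℝ)) / ((m + 1 : ℤ) : ℝ) ^ 2 := by
      positivity
    have hL0 : 0 ≤ Len a b m := le_trans (by rw [mul_div_assoc]; positivity) l1
    have g1 := HL a b m h ha hab hb h3 hm hh h1 h2 _ (Finset.Subset.refl _)
    have g2 := HU a b m h ha hab hb h3 hm hh h1 _ (Finset.Subset.refl _)
    constructor
    · refine le_trans ?_ g1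
      calc c * (1 / 10) * (Len a b m) ^ ((1 : ℝ) / 3)
          = c * (1 / 10 * (Len a b m) ^ ((1 : ℝ) / 3)) := by ring
        _ ≤ c * (Len a b m / 10) ^ ((1 : ℝ) / 3) :=
            mul_le_mul_of_nonneg_left (third_pow hL0) hc.le
        _ ≤ _ := mul_le_mul_of_nonneg_left
            (Real.rpow_le_rpow (by positivity) (by linarith) (by norm_num)) hc.le
    · refine le_trans g2 (mul_le_mul_of_nonneg_left (Real.rpow_le_rpow hq ?_ (by norm_num)) hC.le)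
      refine le_trans ?_ l1
      have e : 2 * (((b - a + 1 : ℤ) : ℝ) * ((b + 1 : ℤ) : ℝ)) / ((m + 1 : ℤ) : ℝ) ^ 2 =
          2 * ((((b - a + 1 : ℤ) : ℝ) * ((b + 1 : ℤ) : ℝ)) / ((m + 1 : ℤ) : ℝ) ^ 2) :=
        mul_div_assoc _ _ _
      rw [e]
      linarith
  intro a b m h ha hab hb hm hh h1 h2
  by_cases h3 : a ≤ m - b
  · exact key a b m h ha hab hb hm hh h1 h2 h3
  · rw [VI_refl, ← Len_refl a b m (by omega)]
    exact key (m - b) (m - a) m h (by omega) (by omega) (by omega) hm hh h1 h2 (by omega)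

theorem BT_TB {a b a' b' m n : ℤ} (hn : 1 ≤ n) {F : Finset Edg} (h : BT a b a' b' m n F) :
    TBc 0 m 0 n F := by
  obtain ⟨x, y, -, -, hr⟩ := h
  obtain ⟨x1, x2, k1, k2, k3, -⟩ := sub_TB (a := 0) (b := m) (c := 0) (d := n) (by omega)
    (by rintro x y ⟨-, h⟩ _ _; simp only [Finset.mem_coe, mem_RE_false] at h; omega)
    (by rintro x y ⟨-, h⟩ _ _; simp only [Finset.mem_coe, mem_RE_true] at h; omega)
    hr le_rfl le_rfl
  exact ⟨x1, x2, k1, k2, k3.mono (by rintro e ⟨⟨h1, -⟩, h2⟩; exact ⟨h1, h2⟩)⟩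

theorem pow_two_le {x : ℝ} (h0 : 0 ≤ x) (h4 : x ≤ 4) : x ^ ((1 : ℝ) / 3) ≤ 4 := by
  calc x ^ ((1 : ℝ) / 3) ≤ (4 : ℝ) ^ ((1 : ℝ) / 3) := Real.rpow_le_rpow h0 h4 (by norm_num)
    _ ≤ (4 : ℝ) ^ (1 : ℝ) := Real.rpow_le_rpow_of_exponent_le (by norm_num) (by norm_num)
    _ = 4 := Real.rpow_one 4

theorem le_pow_third {x : ℝ} (h0 : 0 ≤ x) (h1 : x ≤ 1) : x ≤ x ^ ((1 : ℝ) / 3) := by
  rcases h0.eq_or_lt with h | h
  · rw [← h]; exact Real.rpow_nonneg le_rfl _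
  · conv_lhs => rw [← Real.rpow_one x]
    exact Real.rpow_le_rpow_of_exponent_ge h h1 (by norm_num)

end Fin0

open Fin0

/-- **Crossings between intervals of the bottom and of the top side.** -/
theorem BT_bounds (K : ℕ) : ∃ c C : ℝ, 0 < c ∧ 0 < C ∧ ∀ a b a' b' m n : ℤ, 1 ≤ m → 1 ≤ n →
    m ≤ K * n → n ≤ K * m → 0 ≤ a → a ≤ b → b ≤ m → 0 ≤ a' → a' ≤ b' → b' ≤ m →
    c * (Len a b m * Len a' b' m) ^ ((1 : ℝ) / 3) ≤
        P2 (RE 0 m 0 n) (BT a b a' b' m n) ∧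
      P2 (RE 0 m 0 n) (BT a b a' b' m n) ≤
        C * (Len a b m * Len a' b' m) ^ ((1 : ℝ) / 3) ∧
      P2 (RE 0 m 0 n) (BT a b a' b' m n) ≤ 1 - c := by
  obtain ⟨c1, C1, hc1, hC1, HS⟩ := side_bounds (4 * K + 4)
  obtain ⟨c2, hc2, HB⟩ := BT_lower_mul (4 * K + 4)
  obtain ⟨c3, hc3, HT⟩ := TB_lt_one K
  obtain ⟨c4, hc4, HM⟩ := BT_small (2 * K + 2)
  set q : ℝ := (2 / (((2 * K + 3 : ℕ) : ℝ)) ^ 2) * (2 / (((2 * K + 3 : ℕ) : ℝ)) ^ 2) with hq
  have hq0 : 0 < q := by rw [hq]; positivity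
  have hq1 : q ≤ 1 := by
    have : (3 : ℝ) ≤ ((2 * K + 3 : ℕ) : ℝ) := by exact_mod_cast (by omega : 3 ≤ 2 * K + 3)
    have h2 : 2 / (((2 * K + 3 : ℕ) : ℝ)) ^ 2 ≤ 1 := by
      rw [div_le_one (by positivity)]
      nlinarith
    have h3 : 0 ≤ 2 / (((2 * K + 3 : ℕ) : ℝ)) ^ 2 := by positivity
    rw [hq]
    nlinarith
  refine ⟨min (min (c2 * (c1 * c1)) c3) (c4 / 4), max (C1 * C1) (1 / q),
    lt_min (lt_min (by positivity) hc3) (by positivity), lt_max_of_lt_left (by positivity), ?_⟩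
  intro a b a' b' m n hm hn hmn hnm ha hab hb ha' hab' hb'
  obtain ⟨l1, l2⟩ := Len_two a b m ha hab hb
  obtain ⟨l3, l4⟩ := Len_two a' b' m ha' hab' hb'
  have hm0 : (0 : ℝ) < ((m + 1 : ℤ) : ℝ) := by exact_mod_cast (by omega : (0 : ℤ) < m + 1)
  have hL1 : 0 ≤ Len a b m := le_trans (by positivity) l1
  have hL2 : 0 ≤ Len a' b' m := le_trans (by positivity) l3
  have hp : 0 ≤ (Len a b m * Len a' b' m) ^ ((1 : ℝ) / 3) := by positivity
  have hub : P2 (RE 0 m 0 n) (BT a b a' b' m n) ≤ 1 - c3 := by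
    refine le_trans ?_ (HT m n hm hn hmn _ (Finset.Subset.refl _))
    exact Pr_mono okhalf2 (fun F _ hF => BT_TB hn hF)
  refine ⟨?_, ?_, ?_⟩
  · by_cases h3 : n ≤ 2
    · have hmK : m ≤ K * 2 := le_trans hmn (by nlinarith)
      have g := HM a b a' b' m n (by omega) (by push_cast; omega) (by omega)
        (by push_cast; omega) ha hab hb ha' hab' hb'
      have h4 : Len a b m * Len a' b' m ≤ 4 := by nlinarith
      have h5 := pow_two_le (mul_nonneg hL1 hL2) h4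
      calc _ ≤ c4 / 4 * (Len a b m * Len a' b' m) ^ ((1 : ℝ) / 3) :=
            mul_le_mul_of_nonneg_right (min_le_right _ _) hp
        _ ≤ c4 / 4 * 4 := mul_le_mul_of_nonneg_left h5 (by positivity)
        _ = c4 := by ring
        _ ≤ _ := g
    · obtain ⟨h, hh1, hh2, hh3⟩ : ∃ h : ℤ, 1 ≤ h ∧ 2 * h < n ∧ n ≤ 2 * h + 2 :=
        ⟨(n - 1) / 2, by omega, by omega, by omega⟩
      have hKn : (K : ℤ) * n ≤ K * (4 * h) := by
        apply mul_le_mul_of_nonneg_left (by omega) (by positivity)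
      have hKm : (0 : ℤ) ≤ K * m := by positivity
      have hKh : (0 : ℤ) ≤ K * h := by positivity
      have i1 : m ≤ ((4 * K + 4 : ℕ) : ℤ) * h := by push_cast; nlinarith
      have i2 : n ≤ ((4 * K + 4 : ℕ) : ℤ) * m := by push_cast; nlinarith
      have i3 : h ≤ ((4 * K + 4 : ℕ) : ℤ) * m := by omega
      have g := HB a b a' b' m n h hh1 hh2 hm i1 i2 ha hb ha' hb'
      rw [VT_eq] at g
      have s1 := (HS a b m h ha hab hb hm hh1 i1 i3).1
      have s2 := (HS a' b' m h ha' hab' hb' hm hh1 i1 i3).1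
      have r1 : 0 ≤ (Len a b m) ^ ((1 : ℝ) / 3) := Real.rpow_nonneg hL1 _
      have r2 : 0 ≤ (Len a' b' m) ^ ((1 : ℝ) / 3) := Real.rpow_nonneg hL2 _
      calc _ ≤ c2 * (c1 * c1) * (Len a b m * Len a' b' m) ^ ((1 : ℝ) / 3) :=
            mul_le_mul_of_nonneg_right ((min_le_left _ _).trans (min_le_left _ _)) hp
        _ = c2 * ((c1 * (Len a b m) ^ ((1 : ℝ) / 3)) * (c1 * (Len a' b' m) ^ ((1 : ℝ) / 3))) := by
            rw [Real.mul_rpow hL1 hL2]; ring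
        _ ≤ c2 * (P2 (RE 0 m 0 h) (VI a b 0 m h) * P2 (RE 0 m 0 h) (VI a' b' 0 m h)) := by
            apply mul_le_mul_of_nonneg_left _ hc2.le
            exact mul_le_mul s1 s2 (by positivity) (le_trans (by positivity) s1)
        _ ≤ _ := g
  · by_cases h3 : n ≤ 2
    · have hmK : m ≤ K * 2 := le_trans hmn (by nlinarith)
      have h5 : ((m + 1 : ℤ) : ℝ) ≤ ((2 * K + 3 : ℕ) : ℝ) := by
        have : m + 1 ≤ ((2 * K + 3 : ℕ) : ℤ) := by push_cast; omega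
        exact_mod_cast this
      have h6 : 2 / (((2 * K + 3 : ℕ) : ℝ)) ^ 2 ≤ 2 / ((m + 1 : ℤ) : ℝ) ^ 2 := by
        apply div_le_div_of_nonneg_left (by norm_num) (by positivity)
        exact pow_le_pow_left₀ hm0.le h5 2
      have h7 : q ≤ Len a b m * Len a' b' m := by
        rw [hq]
        exact mul_le_mul (h6.trans l1) (h6.trans l3) (by positivity) hL1
      have h8 : q ≤ (Len a b m * Len a' b' m) ^ ((1 : ℝ) / 3) :=
        (le_pow_third hq0.le hq1).trans (Real.rpow_le_rpow hq0.le h7 (by norm_num))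
      calc _ ≤ (1 : ℝ) := Pr_le_one okhalf2 _ _
        _ = 1 / q * q := by field_simp
        _ ≤ 1 / q * (Len a b m * Len a' b' m) ^ ((1 : ℝ) / 3) :=
            mul_le_mul_of_nonneg_left h8 (by positivity)
        _ ≤ _ := mul_le_mul_of_nonneg_right (le_max_right _ _) hp
    · obtain ⟨h, hh1, hh2, hh3⟩ : ∃ h : ℤ, 1 ≤ h ∧ 2 * h < n ∧ n ≤ 2 * h + 2 :=
        ⟨(n - 1) / 2, by omega, by omega, by omega⟩
      have hKn : (K : ℤ) * n ≤ K * (4 * h) := by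
        apply mul_le_mul_of_nonneg_left (by omega) (by positivity)
      have hKm : (0 : ℤ) ≤ K * m := by positivity
      have hKh : (0 : ℤ) ≤ K * h := by positivity
      have i1 : m ≤ ((4 * K + 4 : ℕ) : ℤ) * h := by push_cast; nlinarith
      have i2 : n ≤ ((4 * K + 4 : ℕ) : ℤ) * m := by push_cast; nlinarith
      have i3 : h ≤ ((4 * K + 4 : ℕ) : ℤ) * m := by omega
      have g := BT_upper_mul (a := a) (b := b) (a' := a') (b' := b') hh1 hh2 hm ha hb ha' hb'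
      rw [VT_eq] at g
      have s1 := (HS a b m h ha hab hb hm hh1 i1 i3).2
      have s2 := (HS a' b' m h ha' hab' hb' hm hh1 i1 i3).2
      have r1 : 0 ≤ (Len a b m) ^ ((1 : ℝ) / 3) := Real.rpow_nonneg hL1 _
      calc _ ≤ P2 (RE 0 m 0 h) (VI a b 0 m h) * P2 (RE 0 m 0 h) (VI a' b' 0 m h) := g
        _ ≤ (C1 * (Len a b m) ^ ((1 : ℝ) / 3)) * (C1 * (Len a' b' m) ^ ((1 : ℝ) / 3)) :=
            mul_le_mul s1 s2 (Pr_nonneg okhalf2 _ _) (by positivity)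
        _ = C1 * C1 * (Len a b m * Len a' b' m) ^ ((1 : ℝ) / 3) := by
            rw [Real.mul_rpow hL1 hL2]; ring
        _ ≤ _ := mul_le_mul_of_nonneg_right (le_max_left _ _) hp
  · refine hub.trans ?_
    have : min (min (c2 * (c1 * c1)) c3) (c4 / 4) ≤ c3 :=
      (min_le_left _ _).trans (min_le_right _ _)
    linarith

end H731R
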