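import Pool.Agent.H731R3.Rect.Defs
import Pool.Agent.H731R3.Rect.CArm
import Pool.Agent.H731R3.Rect.QCirc

/-!
Task D: connection probabilities of corner boxes (helper356), model `H731C.HalfBox`.
-/

namespace H731R

open H974 H731C Finset

namespace TD

/-- a path which starts in the corner box of radius `m` and reaches distance `n ≥ m` reaches
distance `m` inside the corner box of radius `m` -/
theorem exitQ {m n : ℤ} (hm : 0 ≤ m) (hmn : m ≤ n) {F : Finset Edg} {u v : Vtx}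
    (hu : inR 0 m 0 m u) (hv : onQ n v)
    (h : Reach (↑F ∩ ↑(RE 0 n 0 n)) u v) :
    ∃ w, onQ m w ∧ Reach (↑F ∩ ↑(RE 0 m 0 m)) u w := by
  obtain ⟨⟨hu1, hu2⟩, hu3, hu4⟩ := hu
  obtain ⟨w, hw1, hw2, hw3⟩ := first_exit (a := -1) (b := m) (c := -1) (d := m)
    ⟨⟨by omega, hu2⟩, by omega, hu4⟩ h (by
      unfold onQ at hv
      omega)
  have hw4 : inR 0 n 0 n w := by
    refine reach_inR (G := (↑F : Set Edg) ∩ ↑(RE (-1) m (-1) m))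
      (u := u) ⟨⟨hu1, by omega⟩, hu3, by omega⟩ (hw3.mono ?_)
    rintro e ⟨⟨h1, h2⟩, h3⟩
    exact ⟨⟨h1, h3⟩, h2⟩
  refine ⟨w, ?_, hw3.mono ?_⟩
  · have := hw4.1.1
    have := hw4.2.1
    unfold onQ
    omega
  · rintro ⟨x, y, _ | _⟩ ⟨⟨h1, h2⟩, h3⟩
    · refine ⟨h1, ?_⟩
      rw [mem_coe, mem_RE_false] at h2 h3 ⊢
      omega
    · refine ⟨h1, ?_⟩
      rw [mem_coe, mem_RE_true] at h2 h3 ⊢
      omega

theorem REq_subset {m n : ℤ} (hmn : m ≤ n) : RE 0 m 0 m ⊆ RE 0 n 0 n :=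
  RE_mono4 le_rfl hmn le_rfl hmn

/-- gluing -/
theorem glueQ {m n : ℤ} (hm : 1 ≤ m) (hmn : 3 * m ≤ n) {F : Finset Edg}
    (h1 : CA (3 * m) F) (h2 : QC m F) (h3 : QA m n F) : CA n F := by
  obtain ⟨f, -, hmeet⟩ := QC_meet hm h2
  obtain ⟨v0, hv0, hr0⟩ := h1
  obtain ⟨u, v, hu, hv, hr⟩ := h3
  have e1 := hmeet (0, 0) v0 ⟨⟨le_refl (0 : ℤ), by show (0 : ℤ) ≤ m; omega⟩,
    le_refl (0 : ℤ), by show (0 : ℤ) ≤ m; omega⟩ hv0 hr0
  obtain ⟨w, hw, hrw⟩ := exitQ (by omega) hmn (u := u) (v := v) (F := F)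
    ⟨⟨hu.1.1, by have := hu.1.2; omega⟩, hu.2.1, by have := hu.2.2; omega⟩ hv hr
  have e2 := hmeet u w hu hw hrw
  have s1 : (↑F : Set Edg) ∩ ↑(RE 0 (3 * m) 0 (3 * m)) ⊆ ↑F ∩ ↑(RE 0 n 0 n) :=
    Set.inter_subset_inter_right _ (by exact_mod_cast REq_subset hmn)
  exact ⟨v, hv, (e1.mono s1).trans ((e2.symm.mono s1).trans hr)⟩

theorem splitQ {m n : ℤ} (hm : 0 ≤ m) (hmn : m ≤ n) {F : Finset Edg} (h : CA n F) :
    CA m (F ∩ RE 0 m 0 m) ∧ QA m n (F ∩ (RE 0 n 0 n \ RE 0 m 0 m)) := by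
  obtain ⟨v, hv, hr⟩ := h
  have hz : inR 0 m 0 m (0, 0) :=
    ⟨⟨le_refl (0 : ℤ), by show (0 : ℤ) ≤ m; omega⟩, le_refl (0 : ℤ), by show (0 : ℤ) ≤ m; omega⟩
  constructor
  · obtain ⟨w, hw, hrw⟩ := exitQ hm hmn hz hv hr
    refine ⟨w, hw, hrw.mono ?_⟩
    rintro e ⟨h1, h2⟩
    refine ⟨?_, h2⟩
    rw [mem_coe, mem_inter]
    exact ⟨h1, h2⟩
  · obtain ⟨w, hw, hrw⟩ := TC.last_exit (inR 0 m 0 m) hr hz
    refine ⟨w, v, hw, hv, hrw.mono ?_⟩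
    rintro e ⟨⟨h1, h2⟩, h3⟩
    refine ⟨?_, h2⟩
    rw [mem_coe, mem_inter, mem_sdiff]
    refine ⟨h1, h2, fun h4 => h3 ?_⟩
    rw [Set.mem_ofPred_eq]
    exact RE_ends h4

theorem pow_ge_self {x : ℝ} (hx : 0 < x) (hx1 : x ≤ 1) : x ≤ x ^ ((2 : ℝ) / 3) := by
  conv_lhs => rw [← Real.rpow_one x]
  exact Real.rpow_le_rpow_of_exponent_ge hx hx1 (by norm_num)

end TD

open TD

theorem QA_upper : ∃ C : ℝ, 0 < C ∧ ∀ m n : ℤ, 1 ≤ m → m ≤ n → ∀ S : Finset Edg,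
    RE 0 n 0 n ⊆ S → P2 S (QA m n) ≤ C * ((m : ℝ) / n) ^ ((2 : ℝ) / 3) := by
  obtain ⟨c, C, hc, hC, hCA⟩ := CA_bounds
  refine ⟨3 * 2 ^ 94 * C / c + 3, by positivity, ?_⟩
  intro m n hm hmn S hS
  have hm0 : (0 : ℝ) < m := by exact_mod_cast (by omega : (0 : ℤ) < m)
  have hn0 : (0 : ℝ) < n := by exact_mod_cast (by omega : (0 : ℤ) < n)
  have hq0 : 0 < (m : ℝ) / n := by positivity
  have hP0 : 0 ≤ P2 S (QA m n) := Pr_nonneg okhalf2 _ _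
  have hP1 : P2 S (QA m n) ≤ 1 := Pr_le_one okhalf2 _ _
  have hq : 0 < ((m : ℝ) / n) ^ ((2 : ℝ) / 3) := Real.rpow_pos_of_pos hq0 _
  by_cases h3 : 3 * m ≤ n
  · have hs3 : RE 0 (3 * m) 0 (3 * m) ⊆ S := (REq_subset h3).trans hS
    have a1 := (hCA (3 * m) (by omega) S hs3).1
    have a2 := (hCA n (by omega) S hS).2
    have a3 : (1/2 : ℝ) ^ 94 ≤ P2 S (QC m) := pr_QC hm hs3
    have i1 := Pr_harris okhalf2 (CA_incr S (3 * m)) (QC_incr S m)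
    have c1 : IncrE S (fun F => CA (3 * m) F ∧ QC m F) := fun F G h1 h2 hF =>
      ⟨CA_incr S (3 * m) F G h1 h2 hF.1, QC_incr S m F G h1 h2 hF.2⟩
    have i2 := Pr_harris okhalf2 c1 (QA_incr S m n)
    have i3 : Pr (fun _ => (1/2 : ℝ)) S
        (fun F => (CA (3 * m) F ∧ QC m F) ∧ QA m n F) ≤ P2 S (CA n) :=
      Pr_mono okhalf2 (fun F _ hF => glueQ hm h3 hF.1.1 hF.1.2 hF.2)
    have hCA0 : 0 ≤ P2 S (CA (3 * m)) := Pr_nonneg okhalf2 _ _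
    set PA := P2 S (CA (3 * m)) with hPA
    set PH := P2 S (QC m) with hPH
    set Q := P2 S (QA m n) with hQ
    have i4 : PA * PH * Q ≤ P2 S (CA n) :=
      le_trans (mul_le_mul_of_nonneg_right i1 hP0) (i2.trans i3)
    have e1 : (1 / 3 : ℝ) * (1 / (m : ℝ)) ^ ((2 : ℝ) / 3) ≤
        ((1 : ℝ) / ((3 * m : ℤ) : ℝ)) ^ ((2 : ℝ) / 3) := by
      have : (1 : ℝ) / ((3 * m : ℤ) : ℝ) = (1 / 3) * (1 / (m : ℝ)) := by
        push_cast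
        field_simp
      rw [this, Real.mul_rpow (by norm_num) (by positivity)]
      gcongr
      exact pow_ge_self (by norm_num) (by norm_num)
    have e2 : c * ((1 / 3 : ℝ) * (1 / (m : ℝ)) ^ ((2 : ℝ) / 3)) ≤ PA :=
      le_trans (by gcongr) a1
    have e3 : c * ((1 / 3 : ℝ) * (1 / (m : ℝ)) ^ ((2 : ℝ) / 3)) * (1 / 2) ^ 94 * Q ≤
        C * (1 / (n : ℝ)) ^ ((2 : ℝ) / 3) := by
      refine le_trans ?_ (i4.trans a2)
      gcongr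
    have hM : (1 / (m : ℝ)) ^ ((2 : ℝ) / 3) = 1 / (m : ℝ) ^ ((2 : ℝ) / 3) := by
      rw [Real.div_rpow (by norm_num) hm0.le, Real.one_rpow]
    have hN : (1 / (n : ℝ)) ^ ((2 : ℝ) / 3) = 1 / (n : ℝ) ^ ((2 : ℝ) / 3) := by
      rw [Real.div_rpow (by norm_num) hn0.le, Real.one_rpow]
    have hMN : ((m : ℝ) / n) ^ ((2 : ℝ) / 3) = (m : ℝ) ^ ((2 : ℝ) / 3) / (n : ℝ) ^ ((2 : ℝ) / 3) :=
      Real.div_rpow hm0.le hn0.le _
    rw [hM, hN] at e3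
    rw [hMN] at hq ⊢
    set M := (m : ℝ) ^ ((2 : ℝ) / 3) with hMd
    set N := (n : ℝ) ^ ((2 : ℝ) / 3) with hNd
    have hM0 : 0 < M := Real.rpow_pos_of_pos hm0 _
    have hN0 : 0 < N := Real.rpow_pos_of_pos hn0 _
    have e4 : Q ≤ 3 * 2 ^ 94 * C / c * (M / N) := by
      have e5 : c * (1 / 3 * (1 / M)) * (1 / 2) ^ 94 * Q = Q * c / (3 * 2 ^ 94 * M) := by
        field_simp
      rw [e5, div_le_iff₀ (by positivity)] at e3
      have e6 : 3 * 2 ^ 94 * C / c * (M / N) = (C * (1 / N) * (3 * 2 ^ 94 * M)) / c := by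
        field_simp
      rw [e6, le_div_iff₀ hc]
      exact e3
    have e7 : 0 ≤ 3 * (M / N) := by positivity
    linarith [e4, e7, (by ring : (3 * 2 ^ 94 * C / c + 3) * (M / N) =
      3 * 2 ^ 94 * C / c * (M / N) + 3 * (M / N))]
  · push Not at h3
    have h1 : (1 : ℝ) / 3 ≤ (m : ℝ) / n := by
      rw [div_le_div_iff₀ (by norm_num) hn0]
      have : (n : ℝ) < 3 * m := by exact_mod_cast h3
      linarith
    have h2 : (m : ℝ) / n ≤ 1 := by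
      rw [div_le_one hn0]
      exact_mod_cast hmn
    have h4 : (m : ℝ) / n ≤ ((m : ℝ) / n) ^ ((2 : ℝ) / 3) := pow_ge_self hq0 h2
    have h5 : 1 ≤ 3 * ((m : ℝ) / n) ^ ((2 : ℝ) / 3) := by linarith
    have h6 : 0 ≤ 3 * 2 ^ 94 * C / c * ((m : ℝ) / n) ^ ((2 : ℝ) / 3) := by positivity
    nlinarith

theorem QA_lower : ∃ c : ℝ, 0 < c ∧ ∀ m n : ℤ, 0 ≤ m → m ≤ n → 1 ≤ n → ∀ S : Finset Edg,
    RE 0 n 0 n ⊆ S → c * (((m : ℝ) + 1) / n) ^ ((2 : ℝ) / 3) ≤ P2 S (QA m n) := by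
  obtain ⟨c, C, hc, hC, hCA⟩ := CA_bounds
  refine ⟨min c (c / C / 2), lt_min hc (by positivity), ?_⟩
  intro m n hm hmn hn S hS
  have hn0 : (0 : ℝ) < n := by exact_mod_cast (by omega : (0 : ℤ) < n)
  rcases hm.eq_or_lt with h0 | h0
  · -- m = 0
    subst h0
    have a1 := (hCA n hn S hS).1
    have i1 : P2 S (CA n) ≤ P2 S (QA 0 n) := by
      refine Pr_mono okhalf2 ?_
      rintro F _ ⟨v, hv, hr⟩
      exact ⟨(0, 0), v, ⟨⟨le_refl (0 : ℤ), le_refl (0 : ℤ)⟩, le_refl (0 : ℤ), le_refl (0 : ℤ)⟩,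
        hv, hr⟩
    have hp : 0 ≤ ((1 : ℝ) / n) ^ ((2 : ℝ) / 3) := by positivity
    have e : ((((0 : ℤ) : ℝ)) + 1) / (n : ℝ) = 1 / n := by push_cast; ring
    rw [e]
    calc min c (c / C / 2) * (1 / (n : ℝ)) ^ ((2 : ℝ) / 3)
        ≤ c * (1 / (n : ℝ)) ^ ((2 : ℝ) / 3) := by gcongr; exact min_le_left _ _
      _ ≤ _ := a1.trans i1
  · have hm1 : 1 ≤ m := by omega
    have hm0 : (0 : ℝ) < m := by exact_mod_cast h0
    set T : Finset Edg := RE 0 n 0 n \ RE 0 m 0 m with hT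
    have hTU : T ⊆ RE 0 n 0 n := sdiff_subset
    have hSU : RE 0 m 0 m ⊆ RE 0 n 0 n := REq_subset hmn
    have hd : Disjoint (RE 0 m 0 m) T := disjoint_sdiff
    have a1 := (hCA n hn _ (le_refl (RE 0 n 0 n))).1
    have a2 := (hCA m hm1 _ (le_refl (RE 0 m 0 m))).2
    have i1 : P2 (RE 0 n 0 n) (CA n) ≤ P2 (RE 0 m 0 m) (CA m) * P2 T (QA m n) := by
      rw [← P2_indep hSU hTU hd]
      exact Pr_mono okhalf2 (fun F _ hF => splitQ hm hmn hF)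
    have i2 : P2 T (QA m n) ≤ P2 S (QA m n) :=
      Pr_mono_set okhalf2 (hTU.trans hS) (QA_incr S m n)
    have hQ0 : 0 ≤ P2 T (QA m n) := Pr_nonneg okhalf2 _ _
    set Q := P2 S (QA m n) with hQ
    set q := P2 T (QA m n) with hq
    have e1 : c * (1 / (n : ℝ)) ^ ((2 : ℝ) / 3) ≤ C * (1 / (m : ℝ)) ^ ((2 : ℝ) / 3) * q := by
      refine a1.trans (i1.trans ?_)
      gcongr
    have hM : (1 / (m : ℝ)) ^ ((2 : ℝ) / 3) = 1 / (m : ℝ) ^ ((2 : ℝ) / 3) := by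
      rw [Real.div_rpow (by norm_num) hm0.le, Real.one_rpow]
    have hN : (1 / (n : ℝ)) ^ ((2 : ℝ) / 3) = 1 / (n : ℝ) ^ ((2 : ℝ) / 3) := by
      rw [Real.div_rpow (by norm_num) hn0.le, Real.one_rpow]
    have hMN : (((m : ℝ) + 1) / n) ^ ((2 : ℝ) / 3) =
        ((m : ℝ) + 1) ^ ((2 : ℝ) / 3) / (n : ℝ) ^ ((2 : ℝ) / 3) :=
      Real.div_rpow (by positivity) hn0.le _
    have hM2 : ((m : ℝ) + 1) ^ ((2 : ℝ) / 3) ≤ 2 * (m : ℝ) ^ ((2 : ℝ) / 3) := by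
      have h1 : ((m : ℝ) + 1) ^ ((2 : ℝ) / 3) ≤ (2 * (m : ℝ)) ^ ((2 : ℝ) / 3) := by
        have : (1 : ℝ) ≤ m := by exact_mod_cast hm1
        gcongr
        linarith
      have h2 : (2 * (m : ℝ)) ^ ((2 : ℝ) / 3) = 2 ^ ((2 : ℝ) / 3) * (m : ℝ) ^ ((2 : ℝ) / 3) :=
        Real.mul_rpow (by norm_num) hm0.le
      have h3 : (2 : ℝ) ^ ((2 : ℝ) / 3) ≤ 2 := by
        conv_rhs => rw [← Real.rpow_one 2]
        exact Real.rpow_le_rpow_of_exponent_le (by norm_num) (by norm_num)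
      have h4 : 0 ≤ (m : ℝ) ^ ((2 : ℝ) / 3) := by positivity
      rw [h2] at h1
      nlinarith
    rw [hM, hN] at e1
    rw [hMN]
    set M := (m : ℝ) ^ ((2 : ℝ) / 3) with hMd
    set N := (n : ℝ) ^ ((2 : ℝ) / 3) with hNd
    have hM0 : 0 < M := Real.rpow_pos_of_pos hm0 _
    have hN0 : 0 < N := Real.rpow_pos_of_pos hn0 _
    calc min c (c / C / 2) * (((m : ℝ) + 1) ^ ((2 : ℝ) / 3) / N)
        ≤ c / C / 2 * (2 * M / N) := by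
          gcongr
          exact min_le_right _ _
      _ = c * (1 / N) / (C * (1 / M)) := by field_simp
      _ ≤ q := by
          rw [div_le_iff₀ (by positivity)]
          linarith
      _ ≤ Q := i2

end H731R
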