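import Pool.Agent.H731R3.Rect.Defs
import Pool.Agent.H731R3.Rect.QBox
import Pool.Agent.H731R3.Rect.QCirc
import Pool.Agent.H731R3.Rect.VInt

/-!
Task F: connection probability of a boundary interval in a corner, lower bound (helper993).
-/

namespace H731R

open H974 H731C Finset

namespace TF

/-- a path which starts in the corner box of radius `m` and reaches distance `m` -/
theorem exitG {B D m : ℤ} {F : Finset Edg} {u v : Vtx}
    (hu : inR 0 m 0 m u) (huG : inR 0 B 0 D u) (hv : m ≤ v.1 ∨ m ≤ v.2)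
    (h : Reach (↑F ∩ ↑(RE 0 B 0 D)) u v) :
    ∃ w, onQ m w ∧ Reach (↑F ∩ ↑(RE 0 m 0 m)) u w := by
  obtain ⟨⟨hu1, hu2⟩, hu3, hu4⟩ := hu
  obtain ⟨w, hw1, hw2, hw3⟩ := first_exit (a := -1) (b := m) (c := -1) (d := m)
    ⟨⟨by omega, hu2⟩, by omega, hu4⟩ h (by omega)
  have hw4 : inR 0 B 0 D w := by
    refine reach_inR (G := (↑F : Set Edg) ∩ ↑(RE (-1) m (-1) m))
      (u := u) huG (hw3.mono ?_)
    rintro e ⟨⟨h1, h2⟩, h3⟩
    exact ⟨⟨h1, h3⟩, h2⟩
  refine ⟨w, ?_, hw3.mono ?_⟩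
  · have := hw4.1.1
    have := hw4.2.1
    unfold onQ
    omega
  · rintro ⟨x, y, _ | _⟩ ⟨⟨h1, h2⟩, h3⟩
    · refine ⟨h1, ?_⟩
      rw [mem_coe, mem_RE_false] at h2 h3 ⊢
      omega
    · refine ⟨h1, ?_⟩
      rw [mem_coe, mem_RE_true] at h2 h3 ⊢
      omega

/-- gluing a local path, a quarter-circuit and a long path -/
theorem glueI {a b r n : ℤ} (hr : 1 ≤ r) (hrn : 3 * r ≤ n) (ha : 0 ≤ a) (hb : b ≤ r)
    {F : Finset Edg} {x : ℤ} {v0 : Vtx} (hx : a ≤ x ∧ x ≤ b) (hv0 : onQ (3 * r) v0)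
    (h0 : Reach (↑F ∩ ↑(RE 0 (3 * r) 0 (3 * r))) (x, 0) v0)
    (h2 : QC r F) (h3 : QA r n F) : QI a b n F := by
  obtain ⟨f, -, hmeet⟩ := QC_meet hr h2
  obtain ⟨u, v, hu, hv, hr'⟩ := h3
  have hxr : inR 0 r 0 r (x, 0) := by
    unfold inR
    simp only
    omega
  have e1 := hmeet (x, 0) v0 hxr hv0 h0
  have hu' : inR 0 (3 * r) 0 (3 * r) u := by
    unfold inR at hu ⊢
    omega
  have hu'' : inR 0 n 0 n u := by
    unfold inR at hu ⊢
    omega
  have hv' : 3 * r ≤ v.1 ∨ 3 * r ≤ v.2 := by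
    unfold onQ at hv
    omega
  obtain ⟨w, hw, hrw⟩ := exitG hu' hu'' hv' hr'
  have e2 := hmeet u w hu hw hrw
  have s1 : (↑F : Set Edg) ∩ ↑(RE 0 (3 * r) 0 (3 * r)) ⊆ ↑F ∩ ↑(RE 0 n 0 n) :=
    Set.inter_subset_inter_right _ (by exact_mod_cast RE_mono4 le_rfl hrn le_rfl hrn)
  exact ⟨x, v, hx, hv, (e1.mono s1).trans ((e2.symm.mono s1).trans hr')⟩

/-- a crossing of the strip above the interval reaches distance `m` from the corner -/
theorem exitVI {a b A B h m : ℤ} (ha : 0 ≤ a) (hA : 0 ≤ A) (hbB : b ≤ B) (hm : 0 ≤ m)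
    (hbm : b ≤ m) (hmh : m ≤ h) {F : Finset Edg} (hF : VI a b A B h F) :
    ∃ x w, (a ≤ x ∧ x ≤ b) ∧ onQ m w ∧ Reach (↑F ∩ ↑(RE 0 m 0 m)) (x, 0) w := by
  obtain ⟨x, y, hx, hy, hr⟩ := hF
  have hr' : Reach (↑F ∩ ↑(RE 0 B 0 h)) (x, 0) (y, h) := by
    refine hr.mono (Set.inter_subset_inter_right _ ?_)
    exact_mod_cast RE_mono4 hA le_rfl le_rfl le_rfl
  obtain ⟨w, hw, hrw⟩ := exitG (m := m) (u := (x, 0)) (v := (y, h))
    (by unfold inR; simp only; omega) (by unfold inR; simp only; omega)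
    (by simp only; omega) hr'
  exact ⟨x, w, hx, hw, hrw⟩

/-- the first `k` vertical edges above `(b, 0)` are open -/
def VP (b : ℤ) (k : ℕ) (F : Finset Edg) : Prop := ∀ j : ℕ, j < k → ((b, (j : ℤ), false) : Edg) ∈ F

theorem VP_incr (S : Finset Edg) (b : ℤ) (k : ℕ) : IncrE S (VP b k) := by
  intro F G h _ hF j hj
  exact h (hF j hj)

theorem VP_pr {b N : ℤ} (hb : 0 ≤ b) (hbN : b ≤ N) {S : Finset Edg} (hS : RE 0 N 0 N ⊆ S)
    (k : ℕ) (hk : (k : ℤ) ≤ N) : (1/2 : ℝ) ^ k ≤ P2 S (VP b k) := by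
  induction k with
  | zero =>
    have h1 : P2 S (VP b 0) = 1 := Pr_true S (fun F _ j hj => absurd hj (Nat.not_lt_zero j))
    rw [h1]
    simp
  | succ k ih =>
    have ih' := ih (by push_cast at hk; omega)
    have he : ((b, (k : ℤ), false) : Edg) ∈ S := by
      apply hS
      rw [mem_RE_false]
      push_cast at hk
      omega
    have h1 := P2_edge he
    have h2 : P2 S (VP b k) * P2 S (fun F => ((b, (k : ℤ), false) : Edg) ∈ F) ≤
        P2 S (fun F => VP b k F ∧ ((b, (k : ℤ), false) : Edg) ∈ F) := by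
      apply Pr_harris okhalf2 (VP_incr S b k)
      intro F G hFG _ hF
      exact hFG hF
    have h3 : P2 S (fun F => VP b k F ∧ ((b, (k : ℤ), false) : Edg) ∈ F) ≤
        P2 S (VP b (k + 1)) := by
      apply Pr_mono okhalf2
      rintro F _ ⟨hF1, hF2⟩ j hj
      rcases Nat.lt_succ_iff_lt_or_eq.mp hj with h | h
      · exact hF1 j h
      · rw [h]
        exact hF2
    rw [h1] at h2
    calc (1/2 : ℝ) ^ (k + 1) = (1/2 : ℝ) ^ k * (1/2) := pow_succ _ _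
      _ ≤ P2 S (VP b k) * (1/2) := mul_le_mul_of_nonneg_right ih' (by norm_num)
      _ ≤ _ := h2.trans h3

theorem VP_reach {b N : ℤ} (hb : 0 ≤ b) (hbN : b ≤ N) {F : Finset Edg} {k : ℕ}
    (hk : (k : ℤ) ≤ N) (hF : VP b k F) (j : ℕ) (hj : j ≤ k) :
    Reach (↑F ∩ ↑(RE 0 N 0 N)) (b, 0) (b, (j : ℤ)) := by
  induction j with
  | zero => exact Reach.refl _ _
  | succ j ih =>
    refine (ih (by omega)).trans (Adj.reach ?_)
    refine ⟨(b, (j : ℤ), false), ⟨hF j (by omega), ?_⟩, Or.inl ⟨rfl, ?_⟩⟩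
    · rw [mem_coe, mem_RE_false]
      omega
    · rw [tgt_false]
      push_cast
      rfl

theorem QI_local {a b n : ℤ} {S S' : Finset Edg} (hS : RE 0 n 0 n ⊆ S)
    (hS' : RE 0 n 0 n ⊆ S') : P2 S (QI a b n) = P2 S' (QI a b n) := by
  have hA : ∀ F : Finset Edg, QI a b n F ↔ QI a b n (F ∩ RE 0 n 0 n) := by
    intro F
    unfold QI
    have : (↑(F ∩ RE 0 n 0 n) : Set Edg) ∩ ↑(RE 0 n 0 n) = ↑F ∩ ↑(RE 0 n 0 n) := by
      rw [Finset.coe_inter, Set.inter_assoc, Set.inter_self]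
    rw [this]
  rw [P2_local hS hA, P2_local hS' hA]

/-- the elementary estimate -/
theorem cmp {l b r : ℤ} (hl : 1 ≤ l) (hlb : l ≤ b + 1) (hr : 1 ≤ r) (hrb : r ≤ b) :
    (((l : ℤ) : ℝ) / ((b + 1 : ℤ) : ℝ)) ≤ (((min l r : ℤ) : ℝ) / r) := by
  have hb0 : (0 : ℝ) < ((b + 1 : ℤ) : ℝ) := by exact_mod_cast (by omega : (0 : ℤ) < b + 1)
  have hr0 : (0 : ℝ) < (r : ℝ) := by exact_mod_cast (by omega : (0 : ℤ) < r)
  rw [div_le_div_iff₀ hb0 hr0]
  rcases le_total l r with h | h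
  · rw [min_eq_left h]
    have h1 : l * r ≤ l * (b + 1) := by
      apply mul_le_mul_of_nonneg_left <;> omega
    exact_mod_cast h1
  · rw [min_eq_right h]
    have h1 : l * r ≤ r * (b + 1) := by
      rw [mul_comm]
      apply mul_le_mul_of_nonneg_left <;> omega
    exact_mod_cast h1

theorem rsplit {l b n : ℝ} (hl : 0 < l) (hb : 0 < b) (hn : 0 < n) :
    (l * b / n ^ 2) ^ ((1 : ℝ) / 3) = (l / b) ^ ((1 : ℝ) / 3) * (b / n) ^ ((2 : ℝ) / 3) := by
  have h1 : (b / n) ^ ((2 : ℝ) / 3) = ((b / n) ^ 2) ^ ((1 : ℝ) / 3) := by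
    rw [← Real.rpow_natCast (b / n) 2, ← Real.rpow_mul (by positivity)]
    norm_num
  rw [h1, ← Real.mul_rpow (by positivity) (by positivity)]
  congr 1
  field_simp

end TF

open TF

theorem QI_lower : ∃ c : ℝ, 0 < c ∧ ∀ a b n : ℤ, 0 ≤ a → a ≤ b → b < n → ∀ S : Finset Edg,
    RE 0 n 0 n ⊆ S →
    c * ((((b - a + 1 : ℤ) : ℝ) * ((b + 1 : ℤ) : ℝ)) / (n : ℝ) ^ 2) ^ ((1 : ℝ) / 3) ≤
      P2 S (QI a b n) := by
  obtain ⟨c0, hc0, hVI⟩ := VI_lower 72
  obtain ⟨c1, hc1, hQA⟩ := QA_lower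
  refine ⟨min (min (c0 * (1/2 : ℝ) ^ 94 * c1) c0)
    (min ((1/2 : ℝ) ^ 18 * (1/2 : ℝ) ^ 94 * c1) ((1/2 : ℝ) ^ 18)), ?_, ?_⟩
  · refine lt_min (lt_min ?_ hc0) (lt_min ?_ ?_) <;> positivity
  intro a b n ha hab hbn S₀ hS₀
  have hn1 : 1 ≤ n := by omega
  set l : ℤ := b - a + 1 with hl
  have hl1 : 1 ≤ l := by omega
  have hlb : l ≤ b + 1 := by omega
  have hl0 : (0 : ℝ) < ((l : ℤ) : ℝ) := by exact_mod_cast (by omega : (0 : ℤ) < l)
  have hb0 : (0 : ℝ) < ((b + 1 : ℤ) : ℝ) := by exact_mod_cast (by omega : (0 : ℤ) < b + 1)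
  have hn0 : (0 : ℝ) < (n : ℝ) := by exact_mod_cast (by omega : (0 : ℤ) < n)
  set X : ℝ := (((l : ℤ) : ℝ) * ((b + 1 : ℤ) : ℝ)) / (n : ℝ) ^ 2 with hX
  have hX0 : 0 < X := by positivity
  have hX1 : 0 < X ^ ((1 : ℝ) / 3) := Real.rpow_pos_of_pos hX0 _
  -- the larger set of edges
  set N : ℤ := max n (max (6 * b) 18) with hN
  have hnN : n ≤ N := le_max_left _ _
  have hbN : 6 * b ≤ N := le_trans (le_max_left _ _) (le_max_right _ _)
  have h18N : 18 ≤ N := le_trans (le_max_right _ _) (le_max_right _ _)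
  rw [QI_local (S' := RE 0 N 0 N) hS₀ (RE_mono4 le_rfl hnN le_rfl hnN)]
  set S : Finset Edg := RE 0 N 0 N with hSdef
  have hnS : RE 0 n 0 n ⊆ S := RE_mono4 le_rfl hnN le_rfl hnN
  by_cases hb6 : 6 ≤ b
  · set r : ℤ := b / 6 with hr
    have hr1 : 1 ≤ r := by omega
    have hr6 : 6 * r ≤ b := by omega
    have hr7 : b ≤ 6 * r + 5 := by omega
    have hcmp := cmp hl1 hlb hr1 (by omega : r ≤ b)
    have hcmp' : (((l : ℤ) : ℝ) / ((b + 1 : ℤ) : ℝ)) ^ ((1 : ℝ) / 3) ≤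
        (((min l r : ℤ) : ℝ) / r) ^ ((1 : ℝ) / 3) :=
      Real.rpow_le_rpow (by positivity) hcmp (by norm_num)
    by_cases hn6 : 6 * b ≤ n
    · -- gluing
      have hR1 : (1 : ℤ) ≤ 2 * b := by omega
      have h1 := hVI a b r (6 * b) hr1 hab (by omega) (by push_cast; omega) S
        (RE_mono4 (by omega) (by omega) le_rfl hbN)
      have h2 := pr_QC hR1 (S := S)
        (RE_mono4 le_rfl (by omega) le_rfl (by omega))
      have h3 := hQA (2 * b) n (by omega) (by omega) hn1 S hnS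
      have i1 : P2 S (VI a b (b - 6 * r) (b + 6 * r) (6 * b)) * P2 S (QC (2 * b)) ≤
          P2 S (fun F => VI a b (b - 6 * r) (b + 6 * r) (6 * b) F ∧ QC (2 * b) F) :=
        Pr_harris okhalf2 (VI_incr S _ _ _ _ _) (QC_incr S _)
      have c12 : IncrE S (fun F => VI a b (b - 6 * r) (b + 6 * r) (6 * b) F ∧
          QC (2 * b) F) := fun F G g1 g2 hF =>
        ⟨VI_incr S _ _ _ _ _ F G g1 g2 hF.1, QC_incr S _ F G g1 g2 hF.2⟩
      have i2 : P2 S (fun F => VI a b (b - 6 * r) (b + 6 * r) (6 * b) F ∧ QC (2 * b) F) *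
          P2 S (QA (2 * b) n) ≤ P2 S (fun F => (VI a b (b - 6 * r) (b + 6 * r) (6 * b) F ∧
            QC (2 * b) F) ∧ QA (2 * b) n F) :=
        Pr_harris okhalf2 c12 (QA_incr S _ _)
      have i3 : P2 S (fun F => (VI a b (b - 6 * r) (b + 6 * r) (6 * b) F ∧
            QC (2 * b) F) ∧ QA (2 * b) n F) ≤ P2 S (QI a b n) := by
        apply Pr_mono okhalf2
        rintro F _ ⟨⟨g1, g2⟩, g3⟩
        obtain ⟨x, w, hx, hw, hrw⟩ := exitVI (m := 3 * (2 * b)) ha (by omega) (by omega)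
          (by omega) (by omega) (by omega) g1
        exact glueI (r := 2 * b) (by omega) (by omega) ha (by omega) hx hw hrw g2 g3
      have hP1 : 0 ≤ P2 S (VI a b (b - 6 * r) (b + 6 * r) (6 * b)) := Pr_nonneg okhalf2 _ _
      have hP2 : 0 ≤ P2 S (QC (2 * b)) := Pr_nonneg okhalf2 _ _
      have hP3 : 0 ≤ P2 S (QA (2 * b) n) := Pr_nonneg okhalf2 _ _
      have hq : (((b + 1 : ℤ) : ℝ) / n) ^ ((2 : ℝ) / 3) ≤
          ((((2 * b : ℤ) : ℝ) + 1) / n) ^ ((2 : ℝ) / 3) := by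
        apply Real.rpow_le_rpow (by positivity) _ (by norm_num)
        apply div_le_div_of_nonneg_right _ hn0.le
        have : ((b + 1 : ℤ) : ℝ) ≤ ((2 * b + 1 : ℤ) : ℝ) := by
          exact_mod_cast (by omega : b + 1 ≤ 2 * b + 1)
        calc ((b + 1 : ℤ) : ℝ) ≤ ((2 * b + 1 : ℤ) : ℝ) := this
          _ = ((2 * b : ℤ) : ℝ) + 1 := by push_cast; ring
      set Y := (((l : ℤ) : ℝ) / ((b + 1 : ℤ) : ℝ)) ^ ((1 : ℝ) / 3) with hY
      have hY0 : 0 ≤ Y := by positivity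
      set Z := (((b + 1 : ℤ) : ℝ) / n) ^ ((2 : ℝ) / 3) with hZ
      have hZ0 : 0 ≤ Z := by positivity
      have k1 : c0 * Y ≤ P2 S (VI a b (b - 6 * r) (b + 6 * r) (6 * b)) :=
        (mul_le_mul_of_nonneg_left hcmp' hc0.le).trans h1
      have k3 : c1 * Z ≤ P2 S (QA (2 * b) n) :=
        (mul_le_mul_of_nonneg_left hq hc1.le).trans h3
      have hXe : X ^ ((1 : ℝ) / 3) = Y * Z := rsplit hl0 hb0 hn0
      rw [hXe]
      calc _ ≤ (c0 * (1/2 : ℝ) ^ 94 * c1) * (Y * Z) :=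
            mul_le_mul_of_nonneg_right ((min_le_left _ _).trans (min_le_left _ _))
              (by positivity)
        _ = (c0 * Y) * (1/2 : ℝ) ^ 94 * (c1 * Z) := by ring
        _ ≤ P2 S (VI a b (b - 6 * r) (b + 6 * r) (6 * b)) * P2 S (QC (2 * b)) *
            P2 S (QA (2 * b) n) := by
          apply mul_le_mul (mul_le_mul k1 h2 (by positivity) hP1) k3 (by positivity)
          exact mul_nonneg hP1 hP2
        _ ≤ _ := (mul_le_mul_of_nonneg_right i1 hP3).trans (i2.trans i3)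
    · -- direct
      have h1 := hVI a b r n hr1 hab (by omega) (by push_cast; omega) S
        (RE_mono4 (by omega) (by omega) le_rfl hnN)
      have i3 : P2 S (VI a b (b - 6 * r) (b + 6 * r) n) ≤ P2 S (QI a b n) := by
        apply Pr_mono okhalf2
        rintro F _ g1
        exact exitVI (m := n) ha (by omega) (by omega) (by omega) (by omega) le_rfl g1
      have hXY : X ≤ ((l : ℤ) : ℝ) / ((b + 1 : ℤ) : ℝ) := by
        rw [hX, div_le_div_iff₀ (by positivity) hb0]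
        have h5 : ((b + 1 : ℤ) : ℝ) ≤ (n : ℝ) := by
          exact_mod_cast (by omega : b + 1 ≤ n)
        have h6 : ((b + 1 : ℤ) : ℝ) * ((b + 1 : ℤ) : ℝ) ≤ (n : ℝ) ^ 2 := by
          rw [sq]
          exact mul_le_mul h5 h5 hb0.le hn0.le
        calc ((l : ℤ) : ℝ) * ((b + 1 : ℤ) : ℝ) * ((b + 1 : ℤ) : ℝ) =
            ((l : ℤ) : ℝ) * (((b + 1 : ℤ) : ℝ) * ((b + 1 : ℤ) : ℝ)) := by ring
          _ ≤ _ := mul_le_mul_of_nonneg_left h6 hl0.le
      have hXY' : X ^ ((1 : ℝ) / 3) ≤ (((min l r : ℤ) : ℝ) / r) ^ ((1 : ℝ) / 3) :=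
        (Real.rpow_le_rpow hX0.le hXY (by norm_num)).trans hcmp'
      calc _ ≤ c0 * X ^ ((1 : ℝ) / 3) :=
            mul_le_mul_of_nonneg_right ((min_le_left _ _).trans (min_le_right _ _)) hX1.le
        _ ≤ c0 * (((min l r : ℤ) : ℝ) / r) ^ ((1 : ℝ) / 3) :=
            mul_le_mul_of_nonneg_left hXY' hc0.le
        _ ≤ _ := h1.trans i3
  · have hb5 : b ≤ 5 := by omega
    have hb00 : 0 ≤ b := by omega
    by_cases hn18 : 18 ≤ n
    · have h1 := VP_pr (N := N) hb00 (by omega) (S := S) (subset_refl _) 18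
        (by push_cast; omega)
      have h2 := pr_QC (r := 6) (by norm_num) (S := S)
        (RE_mono4 le_rfl (by omega) le_rfl (by omega))
      have h3 := hQA 6 n (by omega) (by omega) hn1 S hnS
      have i1 : P2 S (VP b 18) * P2 S (QC 6) ≤ P2 S (fun F => VP b 18 F ∧ QC 6 F) :=
        Pr_harris okhalf2 (VP_incr S _ _) (QC_incr S _)
      have c12 : IncrE S (fun F => VP b 18 F ∧ QC 6 F) := fun F G g1 g2 hF =>
        ⟨VP_incr S _ _ F G g1 g2 hF.1, QC_incr S _ F G g1 g2 hF.2⟩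
      have i2 : P2 S (fun F => VP b 18 F ∧ QC 6 F) * P2 S (QA 6 n) ≤
          P2 S (fun F => (VP b 18 F ∧ QC 6 F) ∧ QA 6 n F) :=
        Pr_harris okhalf2 c12 (QA_incr S _ _)
      have i3 : P2 S (fun F => (VP b 18 F ∧ QC 6 F) ∧ QA 6 n F) ≤ P2 S (QI a b n) := by
        apply Pr_mono okhalf2
        rintro F _ ⟨⟨g1, g2⟩, g3⟩
        have g4 := VP_reach (N := 18) hb00 (by omega) (by norm_num) g1 18 le_rfl
        refine glueI (r := 6) (x := b) (v0 := (b, ((18 : ℕ) : ℤ))) (by omega) (by omega) ha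
          (by omega) ⟨hab, le_rfl⟩ ?_ g4 g2 g3
        unfold onQ
        simp
      have hP1 : 0 ≤ P2 S (VP b 18) := Pr_nonneg okhalf2 _ _
      have hP2 : 0 ≤ P2 S (QC 6) := Pr_nonneg okhalf2 _ _
      have hP3 : 0 ≤ P2 S (QA 6 n) := Pr_nonneg okhalf2 _ _
      have hX7 : X ^ ((1 : ℝ) / 3) ≤ ((((6 : ℤ) : ℝ) + 1) / n) ^ ((2 : ℝ) / 3) := by
        have h5 : ((((6 : ℤ) : ℝ) + 1) / n) ^ ((2 : ℝ) / 3) =
            (((((6 : ℤ) : ℝ) + 1) / n) ^ 2) ^ ((1 : ℝ) / 3) := by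
          rw [← Real.rpow_natCast _ 2, ← Real.rpow_mul (by positivity)]
          norm_num
        rw [h5]
        apply Real.rpow_le_rpow hX0.le _ (by norm_num)
        rw [hX, div_pow]
        apply div_le_div_of_nonneg_right _ (by positivity)
        have h6 : ((l : ℤ) : ℝ) ≤ 6 := by exact_mod_cast (by omega : l ≤ 6)
        have h7 : ((b + 1 : ℤ) : ℝ) ≤ 6 := by exact_mod_cast (by omega : b + 1 ≤ 6)
        have h8 : ((l : ℤ) : ℝ) * ((b + 1 : ℤ) : ℝ) ≤ 6 * 6 :=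
          mul_le_mul h6 h7 hb0.le (by norm_num)
        refine h8.trans ?_
        norm_num
      calc _ ≤ ((1/2 : ℝ) ^ 18 * (1/2 : ℝ) ^ 94 * c1) * X ^ ((1 : ℝ) / 3) :=
            mul_le_mul_of_nonneg_right ((min_le_right _ _).trans (min_le_left _ _)) hX1.le
        _ = (1/2 : ℝ) ^ 18 * (1/2 : ℝ) ^ 94 * (c1 * X ^ ((1 : ℝ) / 3)) := by ring
        _ ≤ P2 S (VP b 18) * P2 S (QC 6) * P2 S (QA 6 n) := by
          apply mul_le_mul (mul_le_mul h1 h2 (by positivity) hP1) _ (by positivity)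
            (mul_nonneg hP1 hP2)
          exact (mul_le_mul_of_nonneg_left hX7 hc1.le).trans h3
        _ ≤ _ := (mul_le_mul_of_nonneg_right i1 hP3).trans (i2.trans i3)
    · obtain ⟨k, hk⟩ := Int.eq_ofNat_of_zero_le (by omega : 0 ≤ n)
      have hk18 : k ≤ 18 := by omega
      have h1 := VP_pr (N := N) hb00 (by omega) (S := S) (subset_refl _) k (by omega)
      have i3 : P2 S (VP b k) ≤ P2 S (QI a b n) := by
        apply Pr_mono okhalf2
        rintro F _ g1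
        have g4 := VP_reach (N := n) hb00 hbn.le (by omega) g1 k le_rfl
        refine ⟨b, (b, (k : ℤ)), ⟨hab, le_rfl⟩, ?_, g4⟩
        unfold onQ
        right
        simp only
        omega
      have hX2 : X ≤ 1 := by
        rw [hX, div_le_one (by positivity), sq]
        have h5 : ((b + 1 : ℤ) : ℝ) ≤ (n : ℝ) := by
          exact_mod_cast (by omega : b + 1 ≤ n)
        have h6 : ((l : ℤ) : ℝ) ≤ (n : ℝ) := by
          exact_mod_cast (by omega : l ≤ n)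
        exact mul_le_mul h6 h5 hb0.le hn0.le
      have hX3 : X ^ ((1 : ℝ) / 3) ≤ 1 := Real.rpow_le_one hX0.le hX2 (by norm_num)
      calc _ ≤ (1/2 : ℝ) ^ 18 * X ^ ((1 : ℝ) / 3) :=
            mul_le_mul_of_nonneg_right ((min_le_right _ _).trans (min_le_right _ _)) hX1.le
        _ ≤ (1/2 : ℝ) ^ 18 * 1 := mul_le_mul_of_nonneg_left hX3 (by positivity)
        _ = (1/2 : ℝ) ^ 18 := by ring
        _ ≤ (1/2 : ℝ) ^ k := pow_le_pow_of_le_one (by norm_num) (by norm_num) hk18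
        _ ≤ _ := h1.trans i3

end H731R
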