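import Pool.Agent.H731R3.Rect.QBox
import Pool.Agent.H731R3.Rect.Defs

/-!
# Task G: upper bound for an interval near the corner
-/

namespace H731R

open H974 H731C Finset

theorem G_exitHA {a b n r : ℤ} (ha : 0 ≤ a) (hab : a ≤ b) (hb : 2 * b ≤ n) (hr : 0 ≤ r)
    (hrb : r ≤ b) (hl : b - a + 1 ≤ r) {F : Finset Edg} (h : QI a b n F) :
    HA b 0 (b - a + 1) r F := by
  obtain ⟨x, v, hx, hv, huv⟩ := h
  have hv' : v.1 ≤ b - r ∨ b + r ≤ v.1 ∨ v.2 ≤ -1 ∨ r ≤ v.2 := by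
    unfold onQ at hv
    omega
  have hu' : inR (b - r) (b + r) (-1) r (x, 0) := by
    unfold inR
    simp only
    omega
  obtain ⟨w, hw1, hw2, hw3⟩ := first_exit hu' huv hv'
  have hw4 : inR 0 n 0 n w := by
    refine reach_inR (G := ↑F) (u := (x, 0)) ?_ (hw3.mono ?_)
    · unfold inR
      simp only
      omega
    · rintro e ⟨he1, -⟩
      exact he1
  refine ⟨(x, 0), w, ?_, ?_, hw3.mono ?_⟩
  · unfold inR
    simp only
    omega
  · unfold onH
    unfold inR at hw4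
    omega
  · rintro ⟨p, q, _ | _⟩ ⟨⟨he1, he2⟩, he3⟩
    · refine ⟨he1, ?_⟩
      rw [Finset.mem_coe, mem_RE_false] at he2 he3 ⊢
      omega
    · refine ⟨he1, ?_⟩
      rw [Finset.mem_coe, mem_RE_true] at he2 he3 ⊢
      omega

theorem G_QA {a b m n : ℤ} (ha : 0 ≤ a) (hb : b ≤ m) {F : Finset Edg} (h : QI a b n F) :
    QA m n F := by
  obtain ⟨x, v, hx, hv, huv⟩ := h
  refine ⟨(x, 0), v, ?_, hv, huv⟩
  unfold inR
  simp only
  omega

theorem G_last {m n : ℤ} {F : Finset Edg} (h : QA m n F) :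
    QA m n (F ∩ (RE 0 n 0 n \ RE 0 m 0 m)) := by
  obtain ⟨u, v, hu, hv, huv⟩ := h
  obtain ⟨w, hw, hwv⟩ := TC.last_exit (fun v => inR 0 m 0 m v) huv hu
  refine ⟨w, v, hw, hv, hwv.mono ?_⟩
  rintro e ⟨⟨he1, he2⟩, he3⟩
  refine ⟨?_, he2⟩
  rw [Finset.mem_coe, Finset.mem_inter, Finset.mem_sdiff]
  refine ⟨he1, he2, fun h => he3 ?_⟩
  exact RE_ends h

theorem G_HA_inter {z t m n : ℤ} {F : Finset Edg} (h : HA z t m n F) :
    HA z t m n (F ∩ RE (z - n) (z + n) t (t + n)) := by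
  obtain ⟨u, v, hu, hv, huv⟩ := h
  refine ⟨u, v, hu, hv, huv.mono ?_⟩
  rintro e ⟨he1, he2⟩
  refine ⟨?_, he2⟩
  rw [Finset.mem_coe, Finset.mem_inter]
  exact ⟨he1, he2⟩

theorem G_two_thirds {x : ℝ} (hx : 0 ≤ x) : x ^ ((2 : ℝ) / 3) = (x ^ 2) ^ ((1 : ℝ) / 3) := by
  rw [← Real.rpow_natCast, ← Real.rpow_mul hx]
  norm_num

theorem G_prob {a b n r : ℤ} (ha : 0 ≤ a) (hab : a ≤ b) (hb : 2 * b ≤ n) (hr : 0 ≤ r)
    (hrb : r ≤ b) (hl : b - a + 1 ≤ r) {S : Finset Edg} (hS : RE 0 n 0 n ⊆ S) :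
    P2 S (QI a b n) ≤ P2 (RE (b - r) (b + r) 0 (0 + r)) (HA b 0 (b - a + 1) r) *
      P2 S (QA (2 * b) n) := by
  have s1 : RE (b - r) (b + r) 0 (0 + r) ⊆ RE 0 (2 * b) 0 (2 * b) :=
    RE_mono4 (by omega) (by omega) (by omega) (by omega)
  have s2 : RE 0 (2 * b) 0 (2 * b) ⊆ RE 0 n 0 n :=
    RE_mono4 (by omega) (by omega) (by omega) (by omega)
  have h1 := P2_indep (U := S) ((s1.trans s2).trans hS)
    (Finset.sdiff_subset.trans hS : RE 0 n 0 n \ RE 0 (2 * b) 0 (2 * b) ⊆ S)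
    (Finset.disjoint_of_subset_left s1 Finset.disjoint_sdiff)
    (HA b 0 (b - a + 1) r) (QA (2 * b) n)
  have h2 : P2 S (QI a b n) ≤ P2 S (fun F =>
      HA b 0 (b - a + 1) r (F ∩ RE (b - r) (b + r) 0 (0 + r)) ∧
        QA (2 * b) n (F ∩ (RE 0 n 0 n \ RE 0 (2 * b) 0 (2 * b)))) := by
    apply Pr_mono okhalf2
    intro F _ hF
    exact ⟨G_HA_inter (G_exitHA ha hab hb hr hrb hl hF), G_last (G_QA ha (by omega) hF)⟩
  refine h2.trans ?_
  rw [h1]
  apply mul_le_mul_of_nonneg_left _ (Pr_nonneg okhalf2 _ _)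
  exact Pr_mono_set okhalf2 (Finset.sdiff_subset.trans hS) (QA_incr S (2 * b) n)

theorem QI_upper : ∃ C : ℝ, 0 < C ∧ ∀ a b n : ℤ, 0 ≤ a → a ≤ b → 2 * b ≤ n → 1 ≤ n →
    ∀ S : Finset Edg, RE 0 n 0 n ⊆ S →
    P2 S (QI a b n) ≤
      C * ((((b - a + 1 : ℤ) : ℝ) * ((b + 1 : ℤ) : ℝ)) / (n : ℝ) ^ 2) ^ ((1 : ℝ) / 3) := by
  obtain ⟨C1, hC1, hQA⟩ := QA_upper
  obtain ⟨C2, hC2, hHA⟩ := HA_upper
  refine ⟨3 * C1 + 6 * C2 + 4 * (C2 * C1), by positivity, ?_⟩
  intro a b n ha hab hb hn S hS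
  have hl1 : 1 ≤ b - a + 1 := by omega
  have hn0 : (0 : ℝ) < n := by exact_mod_cast (by omega : (0 : ℤ) < n)
  have hlR : (1 : ℝ) ≤ ((b - a + 1 : ℤ) : ℝ) := by exact_mod_cast hl1
  have hDR : (1 : ℝ) ≤ ((b + 1 : ℤ) : ℝ) := by exact_mod_cast (by omega : (1 : ℤ) ≤ b + 1)
  generalize hl : b - a + 1 = l at *
  generalize hX : (((l : ℤ) : ℝ) * ((b + 1 : ℤ) : ℝ)) / (n : ℝ) ^ 2 = X
  have hX0 : 0 < X := by
    rw [← hX]
    exact div_pos (mul_pos (by linarith) (by linarith)) (by positivity)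
  have hXr : 0 < X ^ ((1 : ℝ) / 3) := Real.rpow_pos_of_pos hX0 _
  by_cases hc : b + 1 ≤ 16 * l
  · -- near the corner
    have e1 : P2 S (QI a b n) ≤ P2 S (QA (max b 1) n) :=
      Pr_mono okhalf2 (fun F _ hF => G_QA ha (le_max_left _ _) hF)
    have e2 := hQA (max b 1) n (le_max_right _ _) (max_le (by omega) hn) S hS
    have hm0 : (0 : ℝ) ≤ ((max b 1 : ℤ) : ℝ) := by
      exact_mod_cast (by omega : (0 : ℤ) ≤ max b 1)
    rw [G_two_thirds (by positivity)] at e2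
    have hmD : ((max b 1 : ℤ) : ℝ) ≤ ((b + 1 : ℤ) : ℝ) := by
      exact_mod_cast (by omega : max b 1 ≤ b + 1)
    have hDl : ((b + 1 : ℤ) : ℝ) ≤ 16 * (l : ℝ) := by exact_mod_cast hc
    have e3 : (((max b 1 : ℤ) : ℝ) / n) ^ 2 ≤ 16 * X := by
      rw [← hX, div_pow, ← mul_div_assoc]
      apply div_le_div_of_nonneg_right _ (by positivity)
      nlinarith
    have e4 := cube_root_le (K := 3) (by positivity) hX0.le (by norm_num) e3 (by norm_num)
    calc P2 S (QI a b n) ≤ C1 * (3 * X ^ ((1 : ℝ) / 3)) :=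
          (e1.trans e2).trans (mul_le_mul_of_nonneg_left e4 hC1.le)
      _ ≤ _ := by
          have : 0 ≤ (6 * C2 + 4 * (C2 * C1)) * X ^ ((1 : ℝ) / 3) := by positivity
          nlinarith
  · have hb16 : 16 * l ≤ b := by omega
    set r := b / 4 with hr
    have hr1 : l ≤ r := by omega
    have hr2 : b ≤ 8 * r := by omega
    have hr0 : (0 : ℝ) < r := by exact_mod_cast (by omega : (0 : ℤ) < r)
    have hbR : (0 : ℝ) < b := by exact_mod_cast (by omega : (0 : ℤ) < b)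
    have hr2R : (b : ℝ) ≤ 8 * r := by exact_mod_cast hr2
    have hbD : (b : ℝ) ≤ ((b + 1 : ℤ) : ℝ) := by push_cast; linarith
    by_cases h4 : 4 * b ≤ n
    · have e1 := G_prob (S := S) ha hab hb (by omega) (by omega : r ≤ b)
        (by omega : b - a + 1 ≤ r) hS
      rw [hl] at e1
      have e2 := hHA b 0 l r hl1 hr1 (RE (b - r) (b + r) 0 (0 + r)) (Finset.Subset.refl _)
      have e3 := hQA (2 * b) n (by omega) hb S hS
      have hq0 : (0 : ℝ) ≤ ((2 * b : ℤ) : ℝ) := by push_cast; positivity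
      rw [G_two_thirds (by positivity)] at e3
      have e4 : ((l : ℝ) / r) * ((((2 * b : ℤ) : ℝ) / n) ^ 2) ≤ 32 * X := by
        rw [← hX, div_pow, div_mul_div_comm, ← mul_div_assoc, div_le_div_iff₀ (by positivity)
          (by positivity)]
        have k1 : (l : ℝ) * ((2 * b : ℤ) : ℝ) ^ 2 ≤ 32 * ((l : ℝ) * ((b + 1 : ℤ) : ℝ)) * r := by
          push_cast
          push_cast at hbD
          have k2 : (b : ℝ) * b ≤ (8 * r) * (b + 1) :=
            mul_le_mul hr2R hbD hbR.le (by positivity)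
          nlinarith
        calc (l : ℝ) * ((2 * b : ℤ) : ℝ) ^ 2 * (n : ℝ) ^ 2
            ≤ (32 * ((l : ℝ) * ((b + 1 : ℤ) : ℝ)) * r) * (n : ℝ) ^ 2 :=
              mul_le_mul_of_nonneg_right k1 (by positivity)
          _ = _ := by ring
      have e5 := cube_root_le (K := 4) (by positivity) hX0.le (by norm_num) e4 (by norm_num)
      rw [Real.mul_rpow (by positivity) (by positivity)] at e5
      calc P2 S (QI a b n) ≤ (C2 * ((l : ℝ) / r) ^ ((1 : ℝ) / 3)) *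
            (C1 * ((((2 * b : ℤ) : ℝ) / n) ^ 2) ^ ((1 : ℝ) / 3)) :=
            e1.trans (mul_le_mul e2 e3 (Pr_nonneg okhalf2 _ _) (by positivity))
        _ = (C2 * C1) * (((l : ℝ) / r) ^ ((1 : ℝ) / 3) *
            ((((2 * b : ℤ) : ℝ) / n) ^ 2) ^ ((1 : ℝ) / 3)) := by ring
        _ ≤ (C2 * C1) * (4 * X ^ ((1 : ℝ) / 3)) :=
            mul_le_mul_of_nonneg_left e5 (by positivity)
        _ ≤ _ := by
            have : 0 ≤ (3 * C1 + 6 * C2) * X ^ ((1 : ℝ) / 3) := by positivity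
            nlinarith
    · have e1 : P2 S (QI a b n) ≤ P2 S (HA b 0 l r) := by
        apply Pr_mono okhalf2
        intro F _ hF
        have := G_exitHA ha hab hb (by omega) (by omega : r ≤ b) (by omega : b - a + 1 ≤ r) hF
        rwa [hl] at this
      have hsub : RE (b - r) (b + r) 0 (0 + r) ⊆ S :=
        (RE_mono4 (by omega) (by omega) (by omega) (by omega)).trans hS
      have e2 := hHA b 0 l r hl1 hr1 S hsub
      have hnb : (n : ℝ) ≤ 4 * b := by exact_mod_cast (by omega : n ≤ 4 * b)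
      have e4 : (l : ℝ) / r ≤ 128 * X := by
        rw [← hX, ← mul_div_assoc, div_le_div_iff₀ hr0 (by positivity)]
        have k1 : (n : ℝ) ^ 2 ≤ 16 * (b * b) := by nlinarith
        have k2 : (b : ℝ) * b ≤ (8 * r) * ((b + 1 : ℤ) : ℝ) :=
          mul_le_mul hr2R hbD hbR.le (by positivity)
        have k3 : (n : ℝ) ^ 2 ≤ 128 * (((b + 1 : ℤ) : ℝ) * r) := by nlinarith
        calc (l : ℝ) * (n : ℝ) ^ 2 ≤ l * (128 * (((b + 1 : ℤ) : ℝ) * r)) :=
              mul_le_mul_of_nonneg_left k3 (by linarith)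
          _ = _ := by ring
      have e5 := cube_root_le (K := 6) (by positivity) hX0.le (by norm_num) e4 (by norm_num)
      calc P2 S (QI a b n) ≤ C2 * (6 * X ^ ((1 : ℝ) / 3)) :=
            (e1.trans e2).trans (mul_le_mul_of_nonneg_left e5 hC2.le)
        _ ≤ _ := by
            have : 0 ≤ (3 * C1 + 4 * (C2 * C1)) * X ^ ((1 : ℝ) / 3) := by positivity
            nlinarith

end H731R
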